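import Pool.Agent.R140.PK.Check
import Pool.Agent.R140.PK.Data8

set_option autoImplicit false

namespace Pool.Agent.R140.PK

theorem cert8 : (check 8 25 1 0 data8).isSome = true := by decide +kernel

end Pool.Agent.R140.PK
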