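import Mathlib.Data.Nat.Bitwise
import Mathlib.Data.Finset.Card
import Mathlib.Data.Fintype.Card
import Mathlib.Tactic.Tauto
import Mathlib.Tactic.Push
import Mathlib.Tactic.ByContra

set_option autoImplicit false
set_option linter.unusedSectionVars false
set_option linter.unusedVariables false

/-!
# A search for graphs without circuits of length at most four and without long induced paths

A state is a graph on `0, ..., m - 1`, given by its adjacency matrix: bit `32 * i + j` of a number.
The search extends a state by a new vertex adjacent to a vertex with at most two neighbours (or, if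
there is no such vertex, by a vertex adjacent to some vertex), until an induced path with `K`
vertices appears. The list of numbers is a certificate.
-/

namespace Pool.Agent.R140.PK

/-- a row of the matrix -/
def row (A i : Nat) : Nat :=
  Nat.mod (Nat.shiftRight A (Nat.mul (nat_lit 32) i)) (nat_lit 4294967296)

/-- a bit -/
def tb (a i : Nat) : Bool := Nat.beq (Nat.mod (Nat.shiftRight a i) (nat_lit 2)) (nat_lit 1)

/-- a power of two -/
def bit (i : Nat) : Nat := Nat.shiftLeft (nat_lit 1) i

/-- union of rows -/
def orRows (A r : Nat) : Nat → Nat
  | 0 => nat_lit 0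
  | k + 1 => Nat.lor (orRows A r k) (bif tb r k then row A k else nat_lit 0)

/-- the matrix of the relation: at distance one or two -/
def ballm (A m : Nat) : Nat → Nat
  | 0 => nat_lit 0
  | i + 1 => Nat.lor (ballm A m i)
      (Nat.shiftLeft (Nat.lor (row A i) (orRows A (row A i) m)) (Nat.mul (nat_lit 32) i))

/-- the digits of `p` are an induced path -/
def isPath (A m : Nat) : Nat → Nat → Nat → Nat → Bool
  | 0, _, _, _ => true
  | k + 1, p, seen, prev =>
    bif Nat.beq (Nat.land (row A (Nat.mod p (nat_lit 32))) seen) prev then
    bif tb seen (Nat.mod p (nat_lit 32)) then false else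
    bif Nat.ble m (Nat.mod p (nat_lit 32)) then false else
      isPath A m k (Nat.div p (nat_lit 32)) (Nat.lor seen (bit (Nat.mod p (nat_lit 32))))
        (bit (Nat.mod p (nat_lit 32)))
    else false

/-- number of the bits below `k` -/
def cnt (r : Nat) : Nat → Nat
  | 0 => nat_lit 0
  | k + 1 => Nat.add (cnt r k) (Nat.mod (Nat.shiftRight r k) (nat_lit 2))

/-- the extended matrix -/
def extend (A m N Sp : Nat) : Nat :=
  Nat.lor (Nat.lor A (Nat.shiftLeft N (Nat.mul (nat_lit 32) m))) (Nat.shiftLeft Sp m)

/-- all possible new vertices -/
def run (g : Nat → List Nat → Option (List Nat)) (A m B v : Nat) :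
    Nat → Nat → Nat → List Nat → Option (List Nat)
  | 0, N, Sp, s => g (extend A m N Sp) s
  | i + 1, N, Sp, s =>
    bif Nat.beq i v then run g A m B v i N Sp s
    else bif Nat.beq (Nat.land (row B i) N) (nat_lit 0) then
      Option.bind (run g A m B v i N Sp s) (fun s' => run g A m B v i (Nat.lor N (bit i))
        (Nat.lor Sp (bit (Nat.mul (nat_lit 32) i))) s')
    else run g A m B v i N Sp s

/-- the checker; it returns the unused part of the certificate -/
def check (K : Nat) : Nat → Nat → Nat → List Nat → Option (List Nat)
  | 0, _, _, _ => none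
  | _ + 1, _, _, [] => none
  | f + 1, m, A, c :: s =>
    bif Nat.beq (Nat.mod c (nat_lit 2)) (nat_lit 0) then
      bif isPath A m K (Nat.div c (nat_lit 2)) (nat_lit 0) (nat_lit 0) then some s else none
    else bif Nat.ble (nat_lit 31) m then none
    else bif Nat.blt (Nat.div c (nat_lit 2)) m then
      bif Nat.ble (cnt (row A (Nat.div c (nat_lit 2))) m) (nat_lit 2) then
        run (check K f (Nat.succ m)) A m (ballm A m m) (Nat.div c (nat_lit 2)) m
          (bit (Nat.div c (nat_lit 2))) (bit (Nat.mul (nat_lit 32) (Nat.div c (nat_lit 2)))) s
      else none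
    else bif Nat.ble m (nat_lit 17) then
      run (fun A' s' => bif Nat.beq (row A' m) (nat_lit 0) then some s'
        else check K f (Nat.succ m) A' s') A m (ballm A m m) m m (nat_lit 0) (nat_lit 0) s
    else none

theorem row_eq (A i : Nat) : row A i = (A >>> (32 * i)) % 2 ^ 32 := rfl

theorem row_bit (A i j : Nat) : (row A i).testBit j = (decide (j < 32) && A.testBit (32 * i + j)) := by
  rw [row_eq, Nat.testBit_mod_two_pow, Nat.testBit_shiftRight]

theorem tb_eq (a i : Nat) : tb a i = a.testBit i := by
  have h : tb a i = Nat.beq ((a >>> i) % 2) 1 := rfl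
  rw [h, Nat.testBit_eq_decide_div_mod_eq, Nat.shiftRight_eq_div_pow]
  by_cases h1 : a / 2 ^ i % 2 = 1
  · rw [h1]; rfl
  · rw [decide_eq_false h1]
    exact Bool.eq_false_iff.2 (fun h => h1 (Nat.eq_of_beq_eq_true h))

theorem bit_bit (y x : Nat) : (bit y).testBit x = decide (y = x) := by
  have h : bit y = 1 <<< y := rfl
  rw [h, Nat.one_shiftLeft, Nat.testBit_two_pow]

theorem lor_bit (a b x : Nat) : (Nat.lor a b).testBit x = (a.testBit x || b.testBit x) :=
  Nat.testBit_or a b x

theorem land_bit (a b x : Nat) : (Nat.land a b).testBit x = (a.testBit x && b.testBit x) :=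
  Nat.testBit_and a b x

theorem shl_bit (a k x : Nat) :
    (Nat.shiftLeft a k).testBit x = (decide (k ≤ x) && a.testBit (x - k)) := by
  have h : Nat.shiftLeft a k = a <<< k := rfl
  rw [h, Nat.testBit_shiftLeft]

theorem orRows_bit (A r k j : Nat) (h : (orRows A r k).testBit j = true) :
    ∃ l, l < k ∧ r.testBit l = true ∧ (row A l).testBit j = true := by
  induction k with
  | zero =>
    have : orRows A r 0 = 0 := rfl
    rw [this, Nat.zero_testBit] at h
    simp at h
  | succ k ih =>
    rw [orRows, lor_bit, Bool.or_eq_true] at h
    rcases h with h | h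
    · obtain ⟨l, h1, h2, h3⟩ := ih h
      exact ⟨l, by omega, h2, h3⟩
    · rw [tb_eq] at h
      cases h2 : r.testBit k
      · rw [h2] at h
        simp [cond] at h
      · rw [h2] at h
        exact ⟨k, by omega, h2, h⟩

theorem ballm_bit (A m : Nat) (n i j : Nat) (hi : i < n) (hj : j < 32)
    (hA : ∀ i j, 32 ≤ j → (row A i).testBit j = false) :
    ((ballm A m n).testBit (32 * i + j) = true ↔
      ((row A i).testBit j || (orRows A (row A i) m).testBit j) = true) := by
  have hO : ∀ i j, 32 ≤ j → (orRows A (row A i) m).testBit j = false := by
    intro i j hj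
    rw [← Bool.not_eq_true]
    intro h
    obtain ⟨l, _, _, h3⟩ := orRows_bit _ _ _ _ h
    rw [hA l j hj] at h3
    simp at h3
  have key : ∀ n, (∀ i, i < n → ∀ j, j < 32 → ((ballm A m n).testBit (32 * i + j) =
      ((row A i).testBit j || (orRows A (row A i) m).testBit j))) ∧
      ∀ x, 32 * n ≤ x → (ballm A m n).testBit x = false := by
    intro n
    induction n with
    | zero =>
      refine ⟨fun i hi => absurd hi (by omega), fun x _ => ?_⟩
      have : ballm A m 0 = 0 := rfl
      rw [this, Nat.zero_testBit]
    | succ n ih =>
      obtain ⟨ih1, ih2⟩ := ih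
      have hm : ∀ a, Nat.mul 32 a = 32 * a := fun _ => rfl
      refine ⟨fun i hi j hj => ?_, fun x hx => ?_⟩
      · rw [ballm, lor_bit, shl_bit, lor_bit, hm]
        rcases Nat.lt_or_ge i n with h1 | h1
        · rw [ih1 i h1 j hj]
          have : ¬ 32 * n ≤ 32 * i + j := by omega
          simp [this]
        · have h2 : i = n := by omega
          subst h2
          rw [ih2 _ (by omega)]
          have h3 : 32 * i ≤ 32 * i + j := by omega
          have h4 : 32 * i + j - 32 * i = j := by omega
          simp [h4]
      · rw [ballm, lor_bit, shl_bit, lor_bit, hm, ih2 x (by omega), hA n _ (by omega),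
          hO n _ (by omega)]
        simp
  rw [(key n).1 i hi j hj]

theorem cnt_eq (r k : Nat) :
    cnt r k = ((List.range k).filter (fun j => r.testBit j)).length := by
  induction k with
  | zero => rfl
  | succ k ih =>
    have h : cnt r (k + 1) = cnt r k + (r >>> k) % 2 := rfl
    rw [h, ih, List.range_succ, List.filter_append, List.length_append]
    congr 1
    have h2 : r.testBit k = decide ((r >>> k) % 2 = 1) := by
      rw [Nat.testBit_eq_decide_div_mod_eq, Nat.shiftRight_eq_div_pow]
    rcases Nat.mod_two_eq_zero_or_one (r >>> k) with h3 | h3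
    · rw [h3]
      have : r.testBit k = false := by rw [h2, h3]; rfl
      simp [this]
    · rw [h3]
      have : r.testBit k = true := by rw [h2, h3]; rfl
      simp [this]

/-- digits -/
def dg (p i : Nat) : Nat := p / 32 ^ i % 32

theorem dg_zero (p : Nat) : dg p 0 = p % 32 := by simp [dg]

theorem dg_succ (p i : Nat) : dg p (i + 1) = dg (p / 32) i := by
  unfold dg
  rw [Nat.div_div_eq_div_mul, pow_succ, mul_comm 32]

theorem path_spec (A m : Nat) : ∀ (k p : Nat) (seen prev : Nat) (P : Nat → Prop) (Q : Nat → Prop),
    (∀ z, seen.testBit z = true ↔ P z) → (∀ z, prev.testBit z = true ↔ Q z) →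
    isPath A m k p seen prev = true →
    (∀ i, i < k → dg p i < m) ∧
    (∀ i, i < k → ∀ z, P z → z ≠ dg p i ∧
      ((row A (dg p i)).testBit z = true ↔ (i = 0 ∧ Q z))) ∧
    (∀ i j, i < j → j < k → dg p i ≠ dg p j ∧
      ((row A (dg p j)).testBit (dg p i) = true ↔ i + 1 = j)) := by
  intro k
  induction k with
  | zero =>
    intro p seen prev P Q _ _ _
    exact ⟨fun i hi => absurd hi (by omega), fun i hi => absurd hi (by omega),
      fun i j _ hj => absurd hj (by omega)⟩
  | succ k ih =>
    intro p seen prev P Q hP hQ h
    rw [isPath] at h
    have hmod : Nat.mod p 32 = dg p 0 := (dg_zero p).symm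
    have hdiv : Nat.div p 32 = p / 32 := rfl
    simp only [hmod, hdiv, tb_eq] at h
    cases h1 : Nat.beq (Nat.land (row A (dg p 0)) seen) prev
    · rw [h1] at h; simp [cond] at h
    · rw [h1] at h
      simp only [cond_true] at h
      have h1' := Nat.eq_of_beq_eq_true h1
      cases h2 : seen.testBit (dg p 0)
      · rw [h2] at h
        simp only [cond_false] at h
        cases h3 : Nat.ble m (dg p 0)
        · rw [h3] at h
          simp only [cond_false] at h
          have h3' : dg p 0 < m := by
            by_contra hh
            rw [Nat.ble_eq_true_of_le (by omega)] at h3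
            simp at h3
          have h2' : ¬ P (dg p 0) := by
            rw [← hP, h2]; simp
          obtain ⟨r1, r2, r3⟩ := ih (p / 32) _ _ (fun z => P z ∨ z = dg p 0)
            (fun z => z = dg p 0) (fun z => by
              rw [lor_bit, bit_bit, Bool.or_eq_true, hP, decide_eq_true_eq, eq_comm (a := z)])
            (fun z => by rw [bit_bit, decide_eq_true_eq, eq_comm (a := z)]) h
          refine ⟨?_, ?_, ?_⟩
          · intro i hi
            cases i with
            | zero => exact h3'
            | succ i => rw [dg_succ]; exact r1 i (by omega)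
          · intro i hi z hz
            cases i with
            | zero =>
              refine ⟨fun h => h2' (h ▸ hz), ?_⟩
              have h5 : (Nat.land (row A (dg p 0)) seen).testBit z = prev.testBit z := by rw [h1']
              rw [land_bit, (hP z).2 hz, Bool.and_true] at h5
              rw [h5, hQ]
              simp
            | succ i =>
              rw [dg_succ]
              obtain ⟨a1, a2⟩ := r2 i (by omega) z (Or.inl hz)
              refine ⟨a1, a2.trans ?_⟩
              constructor
              · rintro ⟨_, rfl⟩; exact absurd hz h2'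
              · rintro ⟨h, _⟩; omega
          · intro i j hij hj
            obtain ⟨j', rfl⟩ : ∃ j', j = j' + 1 := ⟨j - 1, by omega⟩
            cases i with
            | zero =>
              rw [dg_succ]
              obtain ⟨a1, a2⟩ := r2 j' (by omega) (dg p 0) (Or.inr rfl)
              refine ⟨a1, a2.trans ?_⟩
              constructor
              · rintro ⟨h, _⟩; omega
              · intro h; exact ⟨by omega, rfl⟩
            | succ i =>
              rw [dg_succ, dg_succ]
              obtain ⟨a1, a2⟩ := r3 i j' (by omega) (by omega)
              exact ⟨a1, a2.trans (by omega)⟩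
        · rw [h3] at h; simp [cond] at h
      · rw [h2] at h; simp [cond] at h

theorem ne_zero_testBit {a : Nat} (h : a ≠ 0) : ∃ i, a.testBit i = true := by
  by_contra hcon
  push Not at hcon
  apply h
  refine Nat.eq_of_testBit_eq fun i => ?_
  rw [Nat.zero_testBit]
  simpa using hcon i

theorem run_complete (g : Nat → List Nat → Option (List Nat)) (A m B v T : Nat)
    (hT : ∀ i, m ≤ i → T.testBit i = false)
    (hc : ∀ i j, i < m → j < m → i ≠ j → T.testBit i = true → T.testBit j = true →
      (row B i).testBit j = false) :
    ∀ i N Sp s out, i ≤ m →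
      (∀ j, N.testBit j = (T.testBit j && (decide (i ≤ j) || decide (j = v)))) →
      (∀ x, Sp.testBit x = true ↔ (x % 32 = 0 ∧ N.testBit (x / 32) = true)) →
      run g A m B v i N Sp s = some out →
      ∃ Sp' s' out', (∀ x, Sp'.testBit x = true ↔ (x % 32 = 0 ∧ T.testBit (x / 32) = true)) ∧
        g (extend A m T Sp') s' = some out' := by
  intro i
  induction i with
  | zero =>
    intro N Sp s out _ hN hS h
    have hNT : N = T := by
      refine Nat.eq_of_testBit_eq fun j => ?_
      rw [hN j]
      simp
    subst hNT
    exact ⟨Sp, s, out, hS, h⟩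
  | succ i ih =>
    intro N Sp s out hi hN hS h
    rw [run] at h
    cases h1 : Nat.beq i v
    · rw [h1] at h
      simp only [cond_false] at h
      have h1' : i ≠ v := by
        rintro rfl
        rw [Nat.beq_refl] at h1
        simp at h1
      by_cases h2 : T.testBit i = true
      · have h3 : Nat.land (row B i) N = 0 := by
          refine Nat.eq_of_testBit_eq fun j => ?_
          rw [land_bit, Nat.zero_testBit]
          by_cases h4 : N.testBit j = true
          · have h5 := hN j
            rw [h4] at h5
            have h6 : T.testBit j = true := by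
              cases h7 : T.testBit j
              · rw [h7] at h5; simp at h5
              · rfl
            have h8 : i ≠ j := by
              rintro rfl
              rw [h6] at h5
              simp [h1'] at h5
              omega
            have h9 : j < m := by
              by_contra h10
              rw [hT j (by omega)] at h6
              simp at h6
            rw [hc i j (by omega) h9 h8 h2 h6]
            simp
          · simp only [Bool.not_eq_true] at h4
            rw [h4]
            simp
        have h3' : Nat.beq (Nat.land (row B i) N) 0 = true := by rw [h3]; rfl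
        rw [h3'] at h
        simp only [cond_true] at h
        obtain ⟨s1, hs1, hs2⟩ := Option.bind_eq_some_iff.1 h
        refine ih _ _ _ _ (by omega) (fun j => ?_) (fun x => ?_) hs2
        · rw [lor_bit, hN j, bit_bit]
          by_cases h4 : i = j
          · subst h4
            simp [h2]
          · have h5 : (i + 1 ≤ j) ↔ (i ≤ j) := by omega
            simp [h4, h5]
        · have hm : Nat.mul 32 i = 32 * i := rfl
          rw [lor_bit, Bool.or_eq_true, hS, lor_bit, bit_bit, bit_bit, Bool.or_eq_true,
            decide_eq_true_eq, decide_eq_true_eq, hm]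
          constructor
          · rintro (⟨a1, a2⟩ | a1)
            · exact ⟨a1, Or.inl a2⟩
            · exact ⟨by omega, Or.inr (by omega)⟩
          · rintro ⟨a1, a2 | a2⟩
            · exact Or.inl ⟨a1, a2⟩
            · exact Or.inr (by omega)
      · have h2' : T.testBit i = false := by simpa using h2
        have h3 : ∀ j, N.testBit j = (T.testBit j && (decide (i ≤ j) || decide (j = v))) := by
          intro j
          rw [hN j]
          by_cases h4 : i = j
          · subst h4
            simp [h2']
          · have h5 : (i + 1 ≤ j) ↔ (i ≤ j) := by omega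
            simp [h5]
        cases h4 : Nat.beq (Nat.land (row B i) N) 0
        · rw [h4] at h
          simp only [cond_false] at h
          exact ih _ _ _ _ (by omega) h3 hS h
        · rw [h4] at h
          simp only [cond_true] at h
          obtain ⟨s1, hs1, hs2⟩ := Option.bind_eq_some_iff.1 h
          exact ih _ _ _ _ (by omega) h3 hS hs1
    · rw [h1] at h
      simp only [cond_true] at h
      have h1' : i = v := Nat.eq_of_beq_eq_true h1
      refine ih _ _ _ _ (by omega) (fun j => ?_) hS h
      rw [hN j]
      congr 1
      by_cases h2 : j = v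
      · simp [h2]
      · have h3 : (i + 1 ≤ j) ↔ (i ≤ j) := by omega
        simp [h2, h3]

section
variable {V : Type} (R : V → V → Prop)

/-- the state is an induced subgraph, by the map `φ` -/
structure Emb (m A : Nat) (φ : Nat → V) : Prop where
  adj : ∀ i j, i < m → j < m → (R (φ i) (φ j) ↔ A.testBit (32 * i + j) = true)
  out : ∀ i j, m ≤ i ∨ m ≤ j → j < 32 → A.testBit (32 * i + j) = false
  inj : ∀ i j, i < m → j < m → φ i = φ j → i = j
  nbr : ∀ i, i < m → ∃ b, R (φ i) b

/-- graphs without circuits of length at most four, without vertices of degree one or two and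
without induced paths with `K` vertices -/
structure Hyp (K : Nat) : Prop where
  symm : ∀ a b, R a b → R b a
  irr : ∀ a, ¬ R a a
  tri : ∀ a b c, R a b → R b c → R c a → False
  four : ∀ a b c d, a ≠ c → b ≠ d → R a b → R b c → R c d → R d a → False
  deg : ∀ a b, R a b → ∀ l : List V, l.length ≤ 2 → ∃ w, R a w ∧ w ∉ l
  path : ∀ p : Fin K → V, Function.Injective p →
    ¬ ∀ i j : Fin K, i < j → (R (p i) (p j) ↔ i.val + 1 = j.val)

/-- there is a closed set with at most 17 vertices which contains `v` -/
def Concl (v : V) : Prop :=
  ∃ T : List V, T.length ≤ 17 ∧ v ∈ T ∧ ∀ x ∈ T, ∀ y, R x y → y ∈ T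

variable {R}

theorem Emb.extend {K : Nat} (hR : Hyp R K) {m A : Nat} {φ : Nat → V} (h : Emb R m A φ)
    (hm : m < 31) {w : V} (hw : ∀ i, i < m → φ i ≠ w) {N Sp : Nat}
    (hN : ∀ i, i < m → (N.testBit i = true ↔ R w (φ i)))
    (hN' : ∀ i, m ≤ i → N.testBit i = false) (hb : ∃ b, R w b)
    (hS : ∀ x, Sp.testBit x = true ↔ (x % 32 = 0 ∧ N.testBit (x / 32) = true)) :
    Emb R (m + 1) (extend A m N Sp) (Function.update φ m w) := by
  have hlt : ∀ i, i < m → Function.update φ m w i = φ i := by
    intro i hi
    rw [Function.update_of_ne (by omega)]
  have heq : Function.update φ m w m = w := by simp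
  have hsplit : ∀ i, i < m + 1 → i < m ∨ i = m := by
    intro i hi; omega
  have hbit : ∀ x, (Pool.Agent.R140.PK.extend A m N Sp).testBit x = true ↔
      (A.testBit x = true ∨ (32 * m ≤ x ∧ N.testBit (x - 32 * m) = true)) ∨
        (m ≤ x ∧ (x - m) % 32 = 0 ∧ N.testBit ((x - m) / 32) = true) := by
    intro x
    have hmul : Nat.mul 32 m = 32 * m := rfl
    unfold Pool.Agent.R140.PK.extend
    rw [lor_bit, lor_bit, shl_bit, shl_bit, Bool.or_eq_true, Bool.or_eq_true, Bool.and_eq_true,
      Bool.and_eq_true, decide_eq_true_eq, decide_eq_true_eq, hS, hmul]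
  refine ⟨?_, ?_, ?_, ?_⟩
  · intro i j hi hj
    rw [hbit]
    rcases hsplit i hi with hi | rfl <;> rcases hsplit j hj with hj | rfl
    · rw [hlt i hi, hlt j hj, h.adj i j hi hj]
      constructor
      · intro h1; exact Or.inl (Or.inl h1)
      · rintro ((h1 | ⟨h1, -⟩) | ⟨h1, h2, -⟩)
        · exact h1
        · omega
        · omega
    · rw [hlt i hi, heq]
      constructor
      · intro h1
        refine Or.inr ⟨by omega, by omega, ?_⟩
        have : (32 * i + j - j) / 32 = i := by omega
        rw [this]
        exact (hN i hi).2 (hR.symm _ _ h1)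
      · rintro ((h1 | ⟨h1, -⟩) | ⟨h1, h2, h3⟩)
        · rw [h.out i j (Or.inr le_rfl) (by omega)] at h1; simp at h1
        · omega
        · have : (32 * i + j - j) / 32 = i := by omega
          rw [this] at h3
          exact hR.symm _ _ ((hN i hi).1 h3)
    · rw [hlt j hj, heq]
      have e1 : 32 * i + j - 32 * i = j := by omega
      constructor
      · intro h1
        refine Or.inl (Or.inr ⟨by omega, ?_⟩)
        rw [e1]
        exact (hN j hj).2 h1
      · rintro ((h1 | ⟨h1, h2⟩) | ⟨h1, h2, h3⟩)
        · rw [h.out i j (Or.inl le_rfl) (by omega)] at h1; simp at h1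
        · rw [e1] at h2; exact (hN j hj).1 h2
        · omega
    · rw [heq]
      constructor
      · intro h1; exact absurd h1 (hR.irr _)
      · have e1 : 32 * j + j - 32 * j = j := by omega
        have e2 : (32 * j + j - j) / 32 = j := by omega
        rintro ((h1 | ⟨h1, h2⟩) | ⟨h1, h2, h3⟩)
        · rw [h.out j j (Or.inl le_rfl) (by omega)] at h1; simp at h1
        · rw [e1, hN' j le_rfl] at h2; simp at h2
        · rw [e2, hN' j le_rfl] at h3; simp at h3
  · intro i j hij hj
    rw [← Bool.not_eq_true, hbit]
    rintro ((h1 | ⟨h1, h2⟩) | ⟨h1, h2, h3⟩)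
    · rw [h.out i j (by omega) hj] at h1; simp at h1
    · rw [hN' _ (by omega)] at h2; simp at h2
    · rw [hN' _ (by omega)] at h3; simp at h3
  · intro i j hi hj hij
    rcases hsplit i hi with hi | rfl <;> rcases hsplit j hj with hj | rfl
    · rw [hlt i hi, hlt j hj] at hij
      exact h.inj i j hi hj hij
    · rw [hlt i hi, heq] at hij
      exact absurd hij (hw i hi)
    · rw [hlt j hj, heq] at hij
      exact absurd hij.symm (hw j hj)
    · rfl
  · intro i hi
    rcases hsplit i hi with hi | rfl
    · rw [hlt i hi]; exact h.nbr i hi
    · rw [heq]; exact hb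

theorem check_sound {K : Nat} (hR : Hyp R K) : ∀ (f m A : Nat) (s out : List Nat)
    (φ : Nat → V), Emb R m A φ → 0 < m → check K f m A s = some out →
    Concl R (φ 0) := by
  classical
  intro f
  induction f with
  | zero => intro m A s out φ _ _ h; simp [check] at h
  | succ f ih =>
    intro m A s out φ he hpos h
    cases s with
    | nil => simp [check] at h
    | cons c s =>
      rw [check] at h
      cases h1 : Nat.beq (Nat.mod c 2) 0
      swap
      · rw [h1] at h
        simp only [cond_true] at h
        cases h2 : isPath A m K (Nat.div c 2) 0 0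
        · rw [h2] at h; simp at h
        · exfalso
          obtain ⟨h3, -, h4⟩ := path_spec A m K (Nat.div c 2) 0 0 (fun _ => False)
            (fun _ => False) (fun z => by simp) (fun z => by simp) h2
          refine hR.path (fun i => φ (dg (Nat.div c 2) i.val)) ?_ ?_
          · intro i j hij
            have h5 := he.inj _ _ (h3 i.val i.2) (h3 j.val j.2) hij
            rcases lt_trichotomy i j with h6 | h6 | h6
            · exact absurd h5 (h4 i.val j.val h6 j.2).1
            · exact h6
            · exact absurd h5.symm (h4 j.val i.val h6 i.2).1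
          · intro i j hij
            obtain ⟨a1, a2⟩ := h4 i.val j.val hij j.2
            rw [← a2]
            have h7 : dg (Nat.div c 2) i.val < 32 := Nat.mod_lt _ (by omega)
            rw [row_bit]
            simp only [h7, decide_true, Bool.true_and]
            rw [← he.adj _ _ (h3 j.val j.2) (h3 i.val i.2)]
            exact ⟨hR.symm _ _, hR.symm _ _⟩
      rw [h1] at h
      simp only [cond_false] at h
      cases hm31 : Nat.ble 31 m
      swap
      · rw [hm31] at h; simp at h
      rw [hm31] at h
      simp only [cond_false] at h
      have hm : m < 31 := by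
        by_contra hh
        rw [Nat.ble_eq_true_of_le (by omega)] at hm31
        simp at hm31
      -- the step for a new vertex
      have step : ∀ (g : Nat → List Nat → Option (List Nat)) (w : V) (v N0 S0 : Nat) (o : List Nat),
          (∀ i, i < m → φ i ≠ w) → (∃ b, R w b) → (∃ i, i < m ∧ R w (φ i)) →
          (∀ j, N0.testBit j = true ↔ v < m ∧ j = v) → (v < m → R w (φ v)) →
          (∀ x, S0.testBit x = true ↔ (x % 32 = 0 ∧ N0.testBit (x / 32) = true)) → m ≤ v ∨ v < m →
          run g A m (ballm A m m) v m N0 S0 s = some o →
          (∀ A' s' o', (row A' m) ≠ 0 → g A' s' = some o' →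
            ∃ o'', check K f (m + 1) A' s' = some o'') → Concl R (φ 0) := by
        intro g w v N0 S0 o hw hb hex hN0 hv hS0 _ hrun hg
        set T := Nat.ofBits (fun i : Fin m => decide (R w (φ i))) with hT
        have hTb : ∀ i, T.testBit i = true ↔ i < m ∧ R w (φ i) := by
          intro i
          by_cases h3 : i < m
          · rw [hT, Nat.testBit_ofBits_lt _ _ h3, decide_eq_true_eq]
            exact ⟨fun h => ⟨h3, h⟩, fun h => h.2⟩
          · rw [hT, Nat.testBit_ofBits_ge _ _ (by omega)]
            constructor
            · intro h; simp at h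
            · intro h; exact absurd h.1 h3
        have hTo : ∀ i, m ≤ i → T.testBit i = false := by
          intro i hi
          rw [← Bool.not_eq_true, hTb]
          omega
        have hrowbit : ∀ i j, j < m → ((row A i).testBit j = true ↔ A.testBit (32 * i + j) = true) := by
          intro i j hj
          rw [row_bit]
          have : j < 32 := by omega
          simp [this]
        obtain ⟨Sp', s', out', hS', hs'⟩ := run_complete g A m (ballm A m m) v T hTo
          (by
            intro i j hi hj hij h1 h2
            rw [← Bool.not_eq_true]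
            intro h3
            obtain ⟨h4, h5⟩ := (hTb i).1 h1
            obtain ⟨h6, h7⟩ := (hTb j).1 h2
            rw [row_bit] at h3
            have hj32 : j < 32 := by omega
            simp only [hj32, decide_true, Bool.true_and] at h3
            rw [ballm_bit A m m i j hi hj32 (by
              intro i j hj
              rw [row_bit]
              have : ¬ j < 32 := by omega
              simp [this]), Bool.or_eq_true] at h3
            rcases h3 with h8 | h8
            · exact hR.tri w (φ i) (φ j) h5 ((he.adj i j h4 h6).2 ((hrowbit i j h6).1 h8))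
                (hR.symm _ _ h7)
            · obtain ⟨k, h8, h9, h10⟩ := orRows_bit _ _ _ _ h8
              exact hR.four w (φ i) (φ k) (φ j) (fun h => hw k h8 h.symm)
                (fun h => hij (he.inj i j h4 h6 h)) h5
                ((he.adj i k h4 h8).2 ((hrowbit i k h8).1 h9))
                ((he.adj k j h8 h6).2 ((hrowbit k j h6).1 h10)) (hR.symm _ _ h7))
          m N0 S0 s o le_rfl
          (by
            intro j
            rw [Bool.eq_iff_iff, hN0, Bool.and_eq_true, hTb, Bool.or_eq_true, decide_eq_true_eq,
              decide_eq_true_eq]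
            constructor
            · rintro ⟨h3, rfl⟩; exact ⟨⟨h3, hv h3⟩, Or.inr rfl⟩
            · rintro ⟨⟨h3, h4⟩, h5 | rfl⟩
              · omega
              · exact ⟨h3, rfl⟩)
          hS0 hrun
        have he' := he.extend hR hm hw (N := T) (Sp := Sp') (fun i hi => by
          rw [hTb]; exact ⟨fun h => h.2, fun h => ⟨hi, h⟩⟩) hTo hb hS'
        have hrow : row (Pool.Agent.R140.PK.extend A m T Sp') m ≠ 0 := by
          obtain ⟨i, hi, hi'⟩ := hex
          intro h0
          have h3 : (row (Pool.Agent.R140.PK.extend A m T Sp') m).testBit i = true := by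
            rw [row_bit, Bool.and_eq_true, decide_eq_true_eq]
            refine ⟨by omega, ?_⟩
            rw [← he'.adj m i (by omega) (by omega)]
            rw [Function.update_self, Function.update_of_ne (by omega)]
            exact hi'
          rw [h0, Nat.zero_testBit] at h3
          simp at h3
        obtain ⟨o'', ho⟩ := hg _ _ _ hrow hs'
        have := ih _ _ _ _ _ he' (by omega) ho
        rwa [Function.update_of_ne (by omega)] at this
      cases h2 : Nat.blt (Nat.div c 2) m
      swap
      · rw [h2] at h
        simp only [cond_true] at h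
        have h2' : Nat.div c 2 < m := Nat.le_of_ble_eq_true h2
        set v := Nat.div c 2 with hvdef
        cases h3 : Nat.ble (cnt (row A v) m) 2
        · rw [h3] at h; simp at h
        rw [h3] at h
        simp only [cond_true] at h
        have h3' : ((List.range m).filter (fun j => (row A v).testBit j)).length ≤ 2 := by
          rw [← cnt_eq]
          exact Nat.le_of_ble_eq_true h3
        obtain ⟨b, hb⟩ := he.nbr v h2'
        obtain ⟨w, hw1, hw2⟩ := hR.deg _ _ hb
          (((List.range m).filter (fun j => (row A v).testBit j)).map φ)
          (by rw [List.length_map]; exact h3')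
        refine step (check K f (Nat.succ m)) w v _ _ _ ?_ ⟨_, hR.symm _ _ hw1⟩
          ⟨v, h2', hR.symm _ _ hw1⟩ ?_ (fun _ => hR.symm _ _ hw1) ?_ (Or.inr h2') h ?_
        · rintro i hi rfl
          apply hw2
          rw [List.mem_map]
          refine ⟨i, ?_, rfl⟩
          rw [List.mem_filter, List.mem_range]
          refine ⟨hi, ?_⟩
          rw [row_bit, Bool.and_eq_true, decide_eq_true_eq]
          exact ⟨by omega, (he.adj _ _ h2' hi).1 hw1⟩
        · intro j
          rw [bit_bit, decide_eq_true_eq]
          constructor
          · rintro rfl; exact ⟨h2', rfl⟩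
          · rintro ⟨_, rfl⟩; rfl
        · intro x
          have hmul : Nat.mul 32 v = 32 * v := rfl
          rw [bit_bit, bit_bit, decide_eq_true_eq, decide_eq_true_eq, hmul]
          constructor
          · intro h; exact ⟨by omega, by omega⟩
          · rintro ⟨h, h'⟩; omega
        · intro A' s' o' _ ho
          exact ⟨o', ho⟩
      rw [h2] at h
      simp only [cond_false] at h
      cases h3 : Nat.ble m 17
      · rw [h3] at h; simp at h
      rw [h3] at h
      simp only [cond_true] at h
      have h3' : m ≤ 17 := Nat.le_of_ble_eq_true h3
      by_cases hcl : ∀ x ∈ (List.range m).map φ, ∀ y, R x y → y ∈ (List.range m).map φ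
      · refine ⟨(List.range m).map φ, by simpa using h3', ?_, hcl⟩
        rw [List.mem_map]
        exact ⟨0, List.mem_range.2 hpos, rfl⟩
      · push Not at hcl
        obtain ⟨x, hx, w, hxw, hw⟩ := hcl
        obtain ⟨i, hi, rfl⟩ := List.mem_map.1 hx
        rw [List.mem_range] at hi
        refine step _ w m _ _ _ ?_ ⟨_, hR.symm _ _ hxw⟩
          ⟨i, hi, hR.symm _ _ hxw⟩ ?_ (fun h => absurd h (lt_irrefl _)) ?_ (Or.inl le_rfl) h ?_
        · rintro j hj rfl
          exact hw (List.mem_map.2 ⟨j, List.mem_range.2 hj, rfl⟩)
        · intro j
          rw [Nat.zero_testBit]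
          constructor
          · intro h; simp at h
          · rintro ⟨h, _⟩; omega
        · intro x
          rw [Nat.zero_testBit, Nat.zero_testBit]
          simp
        · intro A' s' o' hne ho
          cases h4 : Nat.beq (row A' m) 0
          · rw [h4] at ho
            exact ⟨o', ho⟩
          · exact absurd (Nat.eq_of_beq_eq_true h4) hne

theorem main_search {K : Nat} (hR : Hyp R K) (f : Nat) (s : List Nat)
    (h : (check K f 1 0 s).isSome = true) (v b : V) (hv : R v b) : Concl R v := by
  obtain ⟨out, ho⟩ := Option.isSome_iff_exists.1 h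
  refine check_sound hR f 1 0 s out (fun _ => v) ⟨?_, ?_, ?_, ?_⟩ (by omega) ho
  · intro i j hi hj
    constructor
    · intro h; exact absurd h (hR.irr _)
    · intro h; simp at h
  · intro i j _ _
    simp
  · intro i j hi hj _
    omega
  · intro i _
    exact ⟨b, hv⟩

end

end Pool.Agent.R140.PK
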