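import Pool.Agent.R140.PK.Three
import Mathlib.Logic.Equiv.Fintype
import Mathlib.Algebra.CharP.Two

set_option autoImplicit false
set_option linter.unusedSectionVars false
set_option linter.unusedVariables false

/-!
# Quadruple covers by six even subgraphs: sums along cuts with three edges, the Petersen graph
-/

namespace Pool.Agent.R140.PK

open Finset Relation Pool.Agent.TH362.TF Pool.Agent.TH362.TF.Four Pool.Agent.R890.FF Pool.Agent
open Pool.Agent.TH362.TF.Contr

/-- the six coordinates -/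
abbrev M6 := Fin 6 → ZMod 2

/-- the number of ones -/
def wt (x : M6) : ℕ := (univ.filter (fun i => x i = 1)).card

section
variable {V E : Type} [Fintype V] [DecidableEq V] [Fintype E] [DecidableEq E]

/-- six even subgraphs with every edge in exactly four of them -/
def Cov (s t : E → V) : Prop :=
  ∃ φ : E → M6, (∀ e, wt (φ e) = 4) ∧ ∀ v, B s t univ φ v = 0

theorem addM (y : M6) : y + y = 0 := by
  funext i
  exact CharTwo.add_self_eq_zero _

theorem B_cutM (s t : E → V) (φ : E → M6) (v : V) :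
    B s t univ φ v = ∑ e ∈ cut s t univ (fun u => decide (u = v)), φ e := by
  unfold B cut
  rw [Finset.sum_filter]
  refine Finset.sum_congr rfl fun e _ => ?_
  by_cases h1 : s e = v <;> by_cases h2 : t e = v <;> simp [h1, h2, addM]

theorem flow_cutM {s t : E → V} {φ : E → M6} (x : V → Bool)
    (h : ∀ v, x v = true → B s t univ φ v = 0) : ∑ e ∈ cut s t univ x, φ e = 0 := by
  have h1 : ∑ v ∈ univ.filter (fun v => x v = true),
      ∑ e : E, ((if s e = v then φ e else 0) + (if t e = v then φ e else 0)) = 0 :=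
    Finset.sum_eq_zero fun v hv => h v (by simpa using hv)
  rw [Finset.sum_comm] at h1
  refine Eq.trans ?_ h1
  unfold cut
  rw [Finset.sum_filter]
  refine Finset.sum_congr rfl fun e _ => ?_
  rw [Finset.sum_add_distrib, Finset.sum_ite_eq, Finset.sum_ite_eq]
  simp only [Finset.mem_filter, Finset.mem_univ, true_and]
  cases x (s e) <;> cases x (t e) <;> simp [addM]

theorem B_outM {s t : E → V} {A : Finset V} {a : V} (ha : a ∈ A) {φ : E → M6}
    (h : ∀ v, B (ctr A a s) (ctr A a t) univ φ v = 0) (x : V) (hx : x ∉ A) :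
    B s t univ φ x = 0 := by
  have h1 := h x
  unfold B ctr at h1
  unfold B
  have key : ∀ y : V, ((if y ∈ A then a else y) = x) ↔ y = x := by
    intro y
    by_cases hy : y ∈ A
    · rw [if_pos hy]
      constructor
      · intro h; exact absurd (h ▸ ha) hx
      · intro h; exact absurd (h ▸ hy) hx
    · rw [if_neg hy]
  simpa only [key] using h1

/-- the group of order four in the six coordinates -/
def w6 (y : F) : M6 := ![y.1, y.2, y.1 + y.2, y.1, y.2, y.1 + y.2]

theorem w6_add : ∀ x y : F, w6 (x + y) = w6 x + w6 y := by decide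

theorem w6_zero : w6 0 = 0 := by decide

theorem w6_wt : ∀ y : F, y ≠ 0 → wt (w6 y) = 4 := by decide

/-- `w6` as a homomorphism -/
def w6H : F →+ M6 := { toFun := w6, map_zero' := w6_zero, map_add' := w6_add }

theorem cov_of_nz {s t : E → V} (h : NZ s t univ) : Cov s t := by
  obtain ⟨φ, h1, h2⟩ := h
  refine ⟨fun e => w6H (φ e), fun e => w6_wt _ (h1 e (mem_univ e)), fun v => ?_⟩
  rw [B_hom w6H s t univ φ v]
  have h3 : B s t univ φ v = 0 := h2 v
  rw [h3, map_zero]

theorem two01 : ∀ x : ZMod 2, x = 0 ∨ x = 1 := by decide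

theorem fib (a b : M6) (ha : wt a = 4) (hb : wt b = 4) (hab : wt (a + b) = 4) (y : F) :
    (univ.filter (fun i => ((a i, b i) : F) = y)).card = if y = 0 then 0 else 2 := by
  have hc : ∀ y : F, (univ.filter (fun i => ((a i, b i) : F) = y)).card =
      ∑ i : Fin 6, (if ((a i, b i) : F) = y then 1 else 0) := fun y => Finset.card_filter _ _
  have h1 : (univ.filter (fun i => ((a i, b i) : F) = (1, 1))).card +
      (univ.filter (fun i => ((a i, b i) : F) = (1, 0))).card = 4 := by
    rw [← ha, wt, Finset.card_filter (fun i => a i = 1), hc, hc, ← Finset.sum_add_distrib]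
    refine Finset.sum_congr rfl fun i _ => ?_
    rcases two01 (a i) with h | h <;> rcases two01 (b i) with h' | h' <;> rw [h, h'] <;> decide
  have h2 : (univ.filter (fun i => ((a i, b i) : F) = (1, 1))).card +
      (univ.filter (fun i => ((a i, b i) : F) = (0, 1))).card = 4 := by
    rw [← hb, wt, Finset.card_filter (fun i => b i = 1), hc, hc, ← Finset.sum_add_distrib]
    refine Finset.sum_congr rfl fun i _ => ?_
    rcases two01 (a i) with h | h <;> rcases two01 (b i) with h' | h' <;> rw [h, h'] <;> decide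
  have h3 : (univ.filter (fun i => ((a i, b i) : F) = (1, 0))).card +
      (univ.filter (fun i => ((a i, b i) : F) = (0, 1))).card = 4 := by
    rw [← hab, wt, Finset.card_filter (fun i => (a + b) i = 1), hc, hc, ← Finset.sum_add_distrib]
    refine Finset.sum_congr rfl fun i _ => ?_
    have : (a + b) i = a i + b i := rfl
    rw [this]
    rcases two01 (a i) with h | h <;> rcases two01 (b i) with h' | h' <;> rw [h, h'] <;> decide
  have h4 : (univ.filter (fun i => ((a i, b i) : F) = (1, 1))).card +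
      (univ.filter (fun i => ((a i, b i) : F) = (1, 0))).card +
      (univ.filter (fun i => ((a i, b i) : F) = (0, 1))).card +
      (univ.filter (fun i => ((a i, b i) : F) = (0, 0))).card = 6 := by
    have e6 : ∑ i : Fin 6, 1 = (6 : ℕ) := by simp
    refine Eq.trans ?_ e6
    rw [hc, hc, hc, hc, ← Finset.sum_add_distrib, ← Finset.sum_add_distrib,
      ← Finset.sum_add_distrib]
    refine Finset.sum_congr rfl fun i _ => ?_
    rcases two01 (a i) with h | h <;> rcases two01 (b i) with h' | h' <;> rw [h, h'] <;> decide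
  obtain ⟨y1, y2⟩ := y
  have z00 : (((0 : ZMod 2), (0 : ZMod 2)) : F) = 0 := rfl
  have n01 : (((0 : ZMod 2), (1 : ZMod 2)) : F) ≠ 0 := by decide
  have n10 : (((1 : ZMod 2), (0 : ZMod 2)) : F) ≠ 0 := by decide
  have n11 : (((1 : ZMod 2), (1 : ZMod 2)) : F) ≠ 0 := by decide
  rcases two01 y1 with rfl | rfl <;> rcases two01 y2 with rfl | rfl
  · rw [if_pos z00]; omega
  · rw [if_neg n01]; omega
  · rw [if_neg n10]; omega
  · rw [if_neg n11]; omega

theorem perm_exists (a b a' b' : M6) (ha : wt a = 4) (hb : wt b = 4) (hab : wt (a + b) = 4)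
    (ha' : wt a' = 4) (hb' : wt b' = 4) (hab' : wt (a' + b') = 4) :
    ∃ σ : Equiv.Perm (Fin 6), (∀ i, a' (σ i) = a i) ∧ ∀ i, b' (σ i) = b i := by
  classical
  have hcard : ∀ y : F, Fintype.card {i : Fin 6 // ((a i, b i) : F) = y} =
      Fintype.card {i : Fin 6 // ((a' i, b' i) : F) = y} := by
    intro y
    rw [Fintype.card_subtype, Fintype.card_subtype, fib a b ha hb hab, fib a' b' ha' hb' hab']
  have e : ∀ y : F, {i : Fin 6 // ((a i, b i) : F) = y} ≃ {i : Fin 6 // ((a' i, b' i) : F) = y} :=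
    fun y => Fintype.equivOfCardEq (hcard y)
  refine ⟨Equiv.ofFiberEquiv (f := fun i => ((a i, b i) : F)) (g := fun i => ((a' i, b' i) : F)) e,
    fun i => ?_, fun i => ?_⟩
  · exact congrArg Prod.fst (Equiv.ofFiberEquiv_map (f := fun i => ((a i, b i) : F))
      (g := fun i => ((a' i, b' i) : F)) e i)
  · exact congrArg Prod.snd (Equiv.ofFiberEquiv_map (f := fun i => ((a i, b i) : F))
      (g := fun i => ((a' i, b' i) : F)) e i)

theorem wt_perm (x : M6) (σ : Equiv.Perm (Fin 6)) : wt (fun i => x (σ i)) = wt x := by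
  unfold wt
  refine Finset.card_bij (fun i _ => σ i) ?_ ?_ ?_
  · intro i hi
    rw [mem_filter] at hi ⊢
    exact ⟨mem_univ _, hi.2⟩
  · intro i _ j _ h
    exact σ.injective h
  · intro j hj
    refine ⟨σ.symm j, ?_, by simp⟩
    rw [mem_filter] at hj ⊢
    exact ⟨mem_univ _, by simpa using hj.2⟩

/-- the permutation of the coordinates as a homomorphism -/
def permH (σ : Equiv.Perm (Fin 6)) : M6 →+ M6 :=
  { toFun := fun x i => x (σ i), map_zero' := rfl, map_add' := fun _ _ => rfl }

/-- sums along cuts with three edges -/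
theorem cov_sum {s t : E → V} (A1 A2 : Finset V) (a1 a2 : V) (h1 : a1 ∈ A1) (h2 : a2 ∈ A2)
    (hd : Disjoint A1 A2) (h3 : (cu s t A1).card = 3) (hc : cu s t A2 = cu s t A1)
    (c1 : Cov (ctr A1 a1 s) (ctr A1 a1 t)) (c2 : Cov (ctr A2 a2 s) (ctr A2 a2 t)) : Cov s t := by
  classical
  obtain ⟨φ, p1, p2⟩ := c1
  obtain ⟨ψ, q1, q2⟩ := c2
  have p3 := B_outM h1 p2
  have q3 := B_outM h2 q2
  obtain ⟨x, y, z, hxy, hxz, hyz, hS⟩ := card_eq_three.1 h3
  have hφ : ∑ e ∈ cu s t A1, φ e = 0 := by
    have h4 := flow_cutM (s := s) (t := t) (φ := φ) (fun v => !decide (v ∈ A1)) (fun v hv => by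
      apply p3
      simpa using hv)
    refine Eq.trans (Finset.sum_congr ?_ fun _ _ => rfl) h4
    ext e
    rw [mem_cu]
    unfold cut
    rw [mem_filter]
    by_cases h5 : s e ∈ A1 <;> by_cases h6 : t e ∈ A1 <;> simp [h5, h6]
  have hψ : ∑ e ∈ cu s t A1, ψ e = 0 := by
    refine flow_cutM (fun v => decide (v ∈ A1)) (fun v hv => ?_)
    apply q3
    intro hv2
    exact (disjoint_left.1 hd) (by simpa using hv) hv2
  rw [hS, sum_insert (by simp [hxy, hxz]), sum_pair hyz] at hφ hψ
  have hz : ∀ (f : E → M6), f x + (f y + f z) = 0 → f z = f x + f y := by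
    intro f hf
    funext i
    have h4 := congrFun hf i
    have h5 : ∀ a b c : ZMod 2, a + (b + c) = 0 → c = a + b := by decide
    exact h5 _ _ _ h4
  have hφz := hz φ hφ
  have hψz := hz ψ hψ
  obtain ⟨σ, s1, s2⟩ := perm_exists (φ x) (φ y) (ψ x) (ψ y) (p1 x) (p1 y) (hφz ▸ p1 z)
    (q1 x) (q1 y) (hψz ▸ q1 z)
  have hagree : ∀ e, e ∈ cu s t A1 → φ e = permH σ (ψ e) := by
    intro e he
    rw [hS, mem_insert, mem_insert, mem_singleton] at he
    rcases he with rfl | rfl | rfl
    · funext i; exact (s1 i).symm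
    · funext i; exact (s2 i).symm
    · funext i
      show φ e i = ψ e (σ i)
      rw [hφz, hψz]
      show φ x i + φ y i = ψ x (σ i) + ψ y (σ i)
      rw [s1, s2]
  refine ⟨fun e => if s e ∈ A1 ∨ t e ∈ A1 then permH σ (ψ e) else φ e, fun e => ?_, fun v => ?_⟩
  · by_cases h4 : s e ∈ A1 ∨ t e ∈ A1
    · simp only [h4, if_true]
      exact (wt_perm (ψ e) σ).trans (q1 e)
    · simp only [h4, if_false]
      exact p1 e
  · by_cases hv : v ∈ A1
    · have h4 : B s t univ (fun e => permH σ (ψ e)) v = 0 := by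
        rw [B_hom (permH σ) s t univ ψ v, q3 v (fun hv2 => (disjoint_left.1 hd) hv hv2), map_zero]
      refine Eq.trans ?_ h4
      unfold B
      refine Finset.sum_congr rfl fun e _ => ?_
      by_cases h5 : s e = v
      · have h6 : s e ∈ A1 ∨ t e ∈ A1 := Or.inl (h5 ▸ hv)
        simp only [h6, if_true]
      · by_cases h7 : t e = v
        · have h6 : s e ∈ A1 ∨ t e ∈ A1 := Or.inr (h7 ▸ hv)
          simp only [h6, if_true]
        · simp only [h5, h7, if_false]
    · refine Eq.trans ?_ (p3 v hv)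
      unfold B
      refine Finset.sum_congr rfl fun e _ => ?_
      have hval : s e = v ∨ t e = v → (if s e ∈ A1 ∨ t e ∈ A1 then permH σ (ψ e) else φ e) = φ e := by
        intro h5
        by_cases h6 : s e ∈ A1 ∨ t e ∈ A1
        · rw [if_pos h6, hagree]
          rw [mem_cu]
          rcases h5 with h5 | h5
          · have h7 : s e ∉ A1 := h5 ▸ hv
            tauto
          · have h7 : t e ∉ A1 := h5 ▸ hv
            tauto
        · rw [if_neg h6]
      beta_reduce
      by_cases h5 : s e = v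
      · rw [hval (Or.inl h5)]
      · by_cases h7 : t e = v
        · rw [hval (Or.inr h7)]
        · simp only [h5, h7, if_false]

theorem PetComp.inj {s t : E → V} {κ : V → Fin 10} {c : Fin 10 → V} (h : PetComp s t κ c) {k l : Fin 10}
    (hkl : c k = c l) : k = l := by
  rw [← h.kc k, ← h.kc l, hkl]

theorem PetComp.ends {s t : E → V} {κ : V → Fin 10} {c : Fin 10 → V} (h : PetComp s t κ c)
    {k l : Fin 10} (hkl : k ≠ l) {e : E} (he : Joins κ s t k l e) : Ends s t (c k) (c l) e := by
  rcases he with ⟨h1, h2⟩ | ⟨h1, h2⟩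
  · have h3 := h.lv e k (fun h' => hkl (((h'.1 h1).symm.trans h2)))
    have h4 := h.lv e l (fun h' => hkl (h1.symm.trans (h'.2 h2)))
    have h5 : t e ≠ c k := fun h' => hkl (by rw [← h.kc k, ← h', h2])
    have h6 : s e ≠ c l := fun h' => hkl (by rw [← h.kc l, ← h', h1])
    exact Or.inl ⟨by tauto, by tauto⟩
  · have h3 := h.lv e k (fun h' => hkl ((h'.2 h2).symm.trans h1))
    have h4 := h.lv e l (fun h' => hkl (h2.symm.trans (h'.1 h1)))
    have h5 : s e ≠ c k := fun h' => hkl (by rw [← h.kc k, ← h', h1])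
    have h6 : t e ≠ c l := fun h' => hkl (by rw [← h.kc l, ← h', h2])
    exact Or.inr ⟨by tauto, by tauto⟩

theorem PetComp.conn {s t : E → V} {κ : V → Fin 10} {c : Fin 10 → V} (h : PetComp s t κ c) :
    ConnS s t univ (fun v => v ∈ univ.image c) ∧
      ∃ e, s e ≠ t e ∧ s e ∈ univ.image c ∧ t e ∈ univ.image c := by
  have hm : ∀ k, c k ∈ univ.image c := fun k => mem_image_of_mem _ (mem_univ _)
  have hadj : ∀ k l, padj k l = true → ∃ e, Ends s t (c k) (c l) e := by
    intro k l hkl
    obtain ⟨e, _, he⟩ := h.pq.2 k l hkl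
    exact ⟨e, h.ends (padj_ne _ _ hkl) he⟩
  have hst : ∀ k l, padj k l = true →
      St s t univ (fun v => v ∈ univ.image c) (c k) (c l) := by
    intro k l hkl
    obtain ⟨e, he⟩ := hadj k l hkl
    exact ⟨⟨e, mem_univ _, he⟩, hm k, hm l⟩
  have key : ∀ k : Fin 10, k = 0 ∨ padj 0 k = true ∨ ∃ l, padj 0 l = true ∧ padj l k = true := by
    decide
  refine ⟨connS_of (a := c 0) ?_, ?_⟩
  · intro x hx
    obtain ⟨k, _, rfl⟩ := mem_image.1 hx
    rcases key k with rfl | h1 | ⟨l, h1, h2⟩
    · exact ReflTransGen.refl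
    · exact ReflTransGen.single (hst 0 k h1)
    · exact (ReflTransGen.single (hst 0 l h1)).tail (hst l k h2)
  · obtain ⟨e, he⟩ := hadj 0 1 (by decide)
    have hne : c 0 ≠ c 1 := fun h' => by
      have := h.inj h'
      exact absurd this (by decide)
    refine ⟨e, ends_ne he hne, ?_⟩
    rcases he with ⟨h1, h2⟩ | ⟨h1, h2⟩
    · rw [h1, h2]; exact ⟨hm 0, hm 1⟩
    · rw [h1, h2]; exact ⟨hm 1, hm 0⟩

/-- the edges at a vertex of a Petersen component -/
theorem PetComp.star {s t : E → V} {κ : V → Fin 10} {c : Fin 10 → V} (h : PetComp s t κ c)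
    (k : Fin 10) : ∃ e : Fin 3 → E, Function.Injective e ∧
      (∀ j, Ends s t (c k) (c (nb k j)) (e j)) ∧
      cut s t univ (fun u => decide (u = c k)) = univ.image e := by
  obtain ⟨e, he, hall⟩ := struct s t κ h.pq k
  have hE : ∀ j, Ends s t (c k) (c (nb k j)) (e j) := fun j =>
    h.ends (nb_ne k j).symm (he j)
  refine ⟨e, ?_, hE, ?_⟩
  · intro i j hij
    have h1 := hE i
    have h2 := hE j
    rw [hij] at h1
    have h3 := nb_ne k i
    have h4 := nb_ne k j
    apply nb_inj k
    rcases h1 with ⟨a, b⟩ | ⟨a, b⟩ <;> rcases h2 with ⟨c', d⟩ | ⟨c', d⟩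
    · exact h.inj (b.symm.trans d)
    · exact absurd (h.inj (c'.symm.trans a)) h4
    · exact absurd (h.inj (a.symm.trans c')) h3
    · exact h.inj (a.symm.trans c')
  · ext x
    have hx : x ∈ cut s t univ (fun u => decide (u = c k)) ↔ ¬ (s x = c k ↔ t x = c k) := by
      unfold cut
      rw [mem_filter]
      simp only [mem_univ, true_and, ne_eq, decide_eq_decide]
    rw [hx, mem_image]
    constructor
    · intro h1
      obtain ⟨j, hj⟩ := hall x (by
        by_cases h2 : s x = c k
        · have h3 : t x ≠ c k := fun h' => h1 ⟨fun _ => h', fun _ => h2⟩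
          obtain ⟨l, hl⟩ := h.cl x k h2
          rw [h2, hl, h.kc, h.kc]
          intro h4
          exact h3 (by rw [hl, h4.1 rfl])
        · have h3 : t x = c k := by tauto
          obtain ⟨l, hl⟩ := h.cl' x k h3
          rw [h3, hl, h.kc, h.kc]
          intro h4
          exact h2 (by rw [hl, h4.2 rfl]))
      exact ⟨j, mem_univ _, hj.symm⟩
    · rintro ⟨j, _, rfl⟩
      have h3 : c (nb k j) ≠ c k := fun h' => nb_ne k j (h.inj h')
      rcases hE j with ⟨a, b⟩ | ⟨a, b⟩
      · rw [a, b]; tauto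
      · rw [a, b]; tauto

/-- the colours of the Petersen graph -/
def pcolN : Fin 10 → Fin 10 → ℕ :=
  ![![0, 60, 0, 0, 51, 15, 0, 0, 0, 0],
    ![60, 0, 43, 0, 0, 0, 23, 0, 0, 0],
    ![0, 43, 0, 54, 0, 0, 0, 29, 0, 0],
    ![0, 0, 54, 0, 45, 0, 0, 0, 27, 0],
    ![51, 0, 0, 45, 0, 0, 0, 0, 0, 30],
    ![15, 0, 0, 0, 0, 0, 0, 58, 53, 0],
    ![0, 23, 0, 0, 0, 0, 0, 0, 46, 57],
    ![0, 0, 29, 0, 0, 58, 0, 0, 0, 39],
    ![0, 0, 0, 27, 0, 53, 46, 0, 0, 0],
    ![0, 0, 0, 0, 30, 0, 57, 39, 0, 0]]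

/-- the colours of the Petersen graph -/
def pcol (k l : Fin 10) : M6 := fun i => if (pcolN k l).testBit i.val then 1 else 0

theorem pcol_symm : ∀ k l, pcol k l = pcol l k := by decide +kernel

theorem pcol_wt : ∀ k l, padj k l = true → wt (pcol k l) = 4 := by decide +kernel

theorem pcol_sum : ∀ k, ∑ j : Fin 3, pcol k (nb k j) = 0 := by decide +kernel

/-- a vector with four ones -/
def w4 : M6 := ![1, 1, 1, 1, 0, 0]

theorem w4_wt : wt w4 = 4 := by decide

theorem cov_pet {s t : E → V} {κ : V → Fin 10} {c : Fin 10 → V} (h : PetComp s t κ c)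
    (hc : Cov (ctr (univ.image c) (c 0) s) (ctr (univ.image c) (c 0) t)) : Cov s t := by
  classical
  obtain ⟨φ, p1, p2⟩ := hc
  have hm : ∀ k, c k ∈ univ.image c := fun k => mem_image_of_mem _ (mem_univ _)
  have p3 := B_outM (hm 0) p2
  have hcl : ∀ e, s e ∈ univ.image c ↔ t e ∈ univ.image c := by
    intro e
    rw [mem_image, mem_image]
    constructor
    · rintro ⟨k, _, hk⟩
      obtain ⟨l, hl⟩ := h.cl e k hk.symm
      exact ⟨l, mem_univ _, hl.symm⟩
    · rintro ⟨k, _, hk⟩
      obtain ⟨l, hl⟩ := h.cl' e k hk.symm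
      exact ⟨l, mem_univ _, hl.symm⟩
  refine ⟨fun e => if s e ∈ univ.image c then
    (if s e = t e then w4 else pcol (κ (s e)) (κ (t e))) else φ e, fun e => ?_, fun v => ?_⟩
  · by_cases h1 : s e ∈ univ.image c
    · simp only [h1, if_true]
      by_cases h2 : s e = t e
      · simp only [h2, if_true]; exact w4_wt
      · simp only [h2, if_false]
        obtain ⟨k, _, hk⟩ := mem_image.1 h1
        obtain ⟨l, _, hl⟩ := mem_image.1 ((hcl e).1 h1)
        have hkl : k ≠ l := fun h' => h2 (by rw [← hk, ← hl, h'])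
        rw [← hk, ← hl, h.kc, h.kc]
        refine pcol_wt _ _ (padj_of_ne s t κ h.pq e k l hkl (Or.inl ⟨?_, ?_⟩))
        · rw [← hk, h.kc]
        · rw [← hl, h.kc]
    · simp only [h1, if_false]; exact p1 e
  · by_cases hv : v ∈ univ.image c
    · obtain ⟨k, _, rfl⟩ := mem_image.1 hv
      obtain ⟨e, he1, he2, he3⟩ := h.star k
      rw [B_cutM, he3, Finset.sum_image (fun i _ j _ hij => he1 hij)]
      refine Eq.trans (Finset.sum_congr rfl fun j _ => ?_) (pcol_sum k)
      have hne : c k ≠ c (nb k j) := fun h' => nb_ne k j (h.inj h').symm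
      have h2 : s (e j) ≠ t (e j) := ends_ne (he2 j) hne
      rcases he2 j with ⟨a, b⟩ | ⟨a, b⟩
      · have h1 : s (e j) ∈ univ.image c := by rw [a]; exact hm _
        simp only [h1, h2, if_true, if_false]
        rw [a, b, h.kc, h.kc]
      · have h1 : s (e j) ∈ univ.image c := by rw [a]; exact hm _
        simp only [h1, h2, if_true, if_false]
        rw [a, b, h.kc, h.kc, pcol_symm]
    · refine Eq.trans ?_ (p3 v hv)
      unfold B
      refine Finset.sum_congr rfl fun e _ => ?_
      by_cases h5 : s e = v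
      · have h6 : s e ∉ univ.image c := h5 ▸ hv
        simp only [h6, if_false]
      · by_cases h7 : t e = v
        · have h6 : s e ∉ univ.image c := fun h' => hv (h7 ▸ (hcl e).1 h')
          simp only [h6, if_false]
        · simp only [h5, h7, if_false]

/-- bridgeless graphs without induced paths with eight vertices have six even subgraphs with every
edge in exactly four of them -/
theorem cov_main (s t : E → V) (hn : N1 s t univ)
    (hp : ¬ ∃ p : Fin 8 → V, Function.Injective p ∧ ∀ i j : Fin 8, i < j →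
      ((∃ e, (s e = p i ∧ t e = p j) ∨ (s e = p j ∧ t e = p i)) ↔ i.val + 1 = j.val)) :
    Cov s t := by
  classical
  by_contra hcon
  obtain ⟨π, hπ, hM⟩ := exists_MinP Cov s t hn hcon
  have hp' : ¬ ∃ q : Fin 8 → V, Function.Injective q ∧ ∀ i j : Fin 8, i < j →
      ((∃ e, (π (s e) = q i ∧ π (t e) = q j) ∨ (π (s e) = q j ∧ π (t e) = q i)) ↔
        i.val + 1 = j.val) := by
    rintro ⟨q, hq, hq'⟩
    obtain ⟨p, hp1, hp2⟩ := lift_path hπ (by omega) q hq (fun i j hij => by
      rw [← hq' i j hij]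
      constructor
      · rintro ⟨_, e, _, he⟩
        exact ⟨e, he⟩
      · rintro ⟨e, he⟩
        exact ⟨fun h => absurd (hq h) (ne_of_gt hij), e, mem_univ e, he⟩)
    refine hp ⟨p, hp1, fun i j hij => ?_⟩
    rw [← hp2 i j hij]
    constructor
    · rintro ⟨e, he⟩
      exact ⟨fun h => absurd (hp1 h) (ne_of_gt hij), e, mem_univ e, he⟩
    · rintro ⟨_, e, _, he⟩
      exact ⟨e, he⟩
  rcases main8 (fun e => π (s e)) (fun e => π (t e)) hM.n1 hp' with h1 | h1
  · exact hM.np (cov_of_nz h1)
  · obtain ⟨κ, c, hc⟩ := hM.pet h1 (fun A1 A2 a1 a2 b1 b2 b3 b4 b5 b6 b7 =>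
      cov_sum A1 A2 a1 a2 b1 b2 b3 b4 b5 b6 b7)
    obtain ⟨h2, h3⟩ := hc.conn
    exact hM.np (cov_pet hc (hM.mn _ _ (mem_image_of_mem _ (mem_univ _)) h2 h3))

end

end Pool.Agent.R140.PK
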