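import Pool.Agent.R890.FF.Min
import Pool.Agent.R140.PK.Check
import Mathlib.Combinatorics.SimpleGraph.Metric

set_option autoImplicit false
set_option linter.unusedSectionVars false
set_option linter.unusedVariables false

/-!
# Minimal contractions without nowhere-zero flow over the group of order four, and induced paths
-/

namespace Pool.Agent.R140.PK

open Finset Relation Pool.Agent.TH362.TF Pool.Agent.TH362.TF.Four Pool.Agent.R890.FF

variable {V E : Type} [Fintype V] [DecidableEq V] [DecidableEq E]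

/-- a step inside a set -/
def St (s t : E → V) (S : Finset E) (P : V → Prop) (u w : V) : Prop :=
  (∃ e ∈ S, Ends s t u w e) ∧ P u ∧ P w

/-- connected sets of vertices -/
def ConnS (s t : E → V) (S : Finset E) (P : V → Prop) : Prop :=
  ∀ x, P x → ∀ y, P y → ReflTransGen (St s t S P) x y

/-- no flow, no Petersen quotient, but the contraction of a connected set gives a flow -/
structure Mc (s t : E → V) (S : Finset E) : Prop where
  n1 : N1 s t S
  nz : ¬ NZ s t S
  pq : ¬ PQ s t S
  mn : ∀ (A : Finset V) (a : V), a ∈ A → ConnS s t S (fun v => v ∈ A) →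
    (∃ e ∈ S, s e ≠ t e ∧ s e ∈ A ∧ t e ∈ A) →
    NZ (fun e => if s e ∈ A then a else s e) (fun e => if t e ∈ A then a else t e) S

/-- the fibres are connected -/
def FC (s t : E → V) (S : Finset E) (π : V → V) : Prop :=
  ∀ x y, π x = π y → ReflTransGen (St s t S (fun u => π u = π x)) x y

theorem rtg_symm {r : V → V → Prop} (h : ∀ a b, r a b → r b a) {x y : V}
    (hxy : ReflTransGen r x y) : ReflTransGen r y x := by
  induction hxy with
  | refl => exact ReflTransGen.refl
  | tail _ h2 ih => exact (ReflTransGen.single (h _ _ h2)).trans ih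

theorem St.symm {s t : E → V} {S : Finset E} {P : V → Prop} :
    ∀ u w, St s t S P u w → St s t S P w u := by
  rintro u w ⟨⟨e, he, h⟩, h1, h2⟩
  exact ⟨⟨e, he, ends_comm' h⟩, h2, h1⟩

theorem St.mono {s t : E → V} {S : Finset E} {P Q : V → Prop} (h : ∀ u, P u → Q u) {x y : V}
    (hxy : ReflTransGen (St s t S P) x y) : ReflTransGen (St s t S Q) x y := by
  induction hxy with
  | refl => exact ReflTransGen.refl
  | tail _ h2 ih => exact ih.tail ⟨h2.1, h _ h2.2.1, h _ h2.2.2⟩

theorem exists_Mc (s t : E → V) (S : Finset E) (h1 : N1 s t S) (h2 : ¬ NZ s t S)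
    (h3 : ¬ PQ s t S) : ∃ π : V → V, FC s t S π ∧ Mc (fun e => π (s e)) (fun e => π (t e)) S := by
  classical
  set P : Finset (V → V) := univ.filter (fun π => FC s t S π ∧
    ¬ NZ (fun e => π (s e)) (fun e => π (t e)) S ∧ ¬ PQ (fun e => π (s e)) (fun e => π (t e)) S)
    with hP
  have hne : P.Nonempty := by
    refine ⟨id, mem_filter.2 ⟨mem_univ _, ?_, h2, h3⟩⟩
    intro x y hxy
    have : x = y := hxy
    subst this
    exact ReflTransGen.refl
  obtain ⟨π, hπ, hmin⟩ := Finset.exists_min_image P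
    (fun π => (S.filter (fun e => π (s e) ≠ π (t e))).card) hne
  obtain ⟨-, h0, h4, h5⟩ := mem_filter.1 hπ
  refine ⟨π, h0, quot_n1 (S' := S) (Subset.refl _) (fun e h h' => absurd h h') h1, h4, h5, ?_⟩
  rintro A a ha hA ⟨e, he, hne', hsA, htA⟩
  by_contra h6
  set f : V → V := fun v => if v ∈ A then a else v with hf
  have hfA : ∀ v, v ∈ A → f v = a := fun v hv => if_pos hv
  have hfn : ∀ v, v ∉ A → f v = v := fun v hv => if_neg hv
  have h7 : ¬ PQ (fun e => f (π (s e))) (fun e => f (π (t e))) S := fun h =>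
    h5 (quot_pq (s := fun e => π (s e)) (t := fun e => π (t e)) (f := f) (S' := S)
      (Subset.refl _) (fun e h h' => absurd h h') h)
  have hFC : FC s t S (fun v => f (π v)) := by
    intro x y hxy
    have hxy' : f (π x) = f (π y) := hxy
    by_cases hx : π x ∈ A
    · have hy : π y ∈ A := by
        by_contra hy
        rw [hfA _ hx, hfn _ hy] at hxy'
        exact hy (hxy' ▸ ha)
      have key : ∀ q, ReflTransGen (St (fun e => π (s e)) (fun e => π (t e)) S (fun v => v ∈ A))
          (π x) q → ∀ y', π y' = q →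
          ReflTransGen (St s t S (fun u => f (π u) = f (π x))) x y' := by
        intro q hq
        induction hq with
        | refl =>
          intro y' hy'
          refine St.mono ?_ (h0 x y' hy'.symm)
          intro u hu
          rw [hu]
        | tail hpq hstep ih =>
          rename_i p q'
          intro y' hy'
          obtain ⟨⟨e', he', hE⟩, hp, hq'⟩ := hstep
          have : ∃ u w, Ends s t u w e' ∧ π u = p ∧ π w = q' := by
            rcases hE with ⟨a1, a2⟩ | ⟨a1, a2⟩
            · exact ⟨s e', t e', Or.inl ⟨rfl, rfl⟩, a1, a2⟩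
            · exact ⟨t e', s e', Or.inr ⟨rfl, rfl⟩, a2, a1⟩
          obtain ⟨u, w, hE', hu, hw⟩ := this
          refine ((ih u hu).tail ⟨⟨e', he', hE'⟩, ?_, ?_⟩).trans ?_
          · show f (π u) = f (π x)
            rw [hfA _ (hu ▸ hp), hfA _ hx]
          · show f (π w) = f (π x)
            rw [hfA _ (hw ▸ hq'), hfA _ hx]
          · refine St.mono ?_ (h0 w y' (hw.trans hy'.symm))
            intro v hv
            show f (π v) = f (π x)
            rw [hv, hfA _ (hw ▸ hq'), hfA _ hx]
      exact key (π y) (hA _ hx _ hy) y rfl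
    · have hy : π y ∉ A := by
        intro hy
        rw [hfn _ hx, hfA _ hy] at hxy'
        exact hx (hxy' ▸ ha)
      rw [hfn _ hx, hfn _ hy] at hxy'
      refine St.mono ?_ (h0 x y hxy')
      intro u hu
      show f (π u) = f (π x)
      rw [hu]
  have h8 := hmin (fun v => f (π v)) (mem_filter.2 ⟨mem_univ _, hFC, h6, h7⟩)
  have h9 : (S.filter (fun e => f (π (s e)) ≠ f (π (t e)))).card <
      (S.filter (fun e => π (s e) ≠ π (t e))).card := by
    refine card_lt_card ⟨?_, ?_⟩
    · intro x hx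
      rw [mem_filter] at hx ⊢
      exact ⟨hx.1, fun h => hx.2 (by rw [h])⟩
    · intro h
      have := h (mem_filter.2 ⟨he, hne'⟩)
      exact (mem_filter.1 this).2 (by rw [hfA _ hsA, hfA _ htA])
  omega

section
variable {s t : E → V} {S : Finset E}

theorem connS_of {A : Finset V} {a : V}
    (h : ∀ x ∈ A, ReflTransGen (St s t S (fun v => v ∈ A)) a x) :
    ConnS s t S (fun v => v ∈ A) := fun x hx y hy =>
  (rtg_symm St.symm (h x hx)).trans (h y hy)

theorem Mc.nopar (h : Mc s t S) {a b : V} (hab : a ≠ b) {e e' : E} (he : e ∈ S) (he' : e' ∈ S)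
    (h1 : Ends s t a b e) (h2 : Ends s t a b e') : e = e' := by
  by_contra hne
  refine h.nz (con_two s t S he he' hne h1 (ends_comm' h2) hab ?_)
  refine h.mn {a, b} a (by simp) (connS_of (a := a) ?_) ⟨e, he, ends_ne h1 hab, ?_⟩
  · intro x hx
    rw [mem_insert, mem_singleton] at hx
    rcases hx with rfl | rfl
    · exact ReflTransGen.refl
    · exact ReflTransGen.single ⟨⟨e, he, h1⟩, by simp, by simp⟩
  · rcases h1 with ⟨h4, h5⟩ | ⟨h4, h5⟩ <;> simp [h4, h5]

theorem Mc.notri (h : Mc s t S) {a b c : V} (hab : a ≠ b) (hac : a ≠ c) (hbc : b ≠ c)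
    {e0 e1 e2 : E} (he0 : e0 ∈ S) (he1 : e1 ∈ S) (he2 : e2 ∈ S) (E0 : Ends s t a b e0)
    (E1 : Ends s t b c e1) (E2 : Ends s t c a e2) : False := by
  refine h.nz (con_three s t S he0 he1 he2 E0 E1 E2 hab hac hbc ?_)
  refine h.mn {a, b, c} a (by simp) (connS_of (a := a) ?_) ⟨e0, he0, ends_ne E0 hab, ?_⟩
  · intro x hx
    rw [mem_insert, mem_insert, mem_singleton] at hx
    rcases hx with rfl | rfl | rfl
    · exact ReflTransGen.refl
    · exact ReflTransGen.single ⟨⟨e0, he0, E0⟩, by simp, by simp⟩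
    · exact ReflTransGen.single ⟨⟨e2, he2, ends_comm' E2⟩, by simp, by simp⟩
  · rcases E0 with ⟨h4, h5⟩ | ⟨h4, h5⟩ <;> simp [h4, h5]

theorem Mc.nofour (h : Mc s t S) {a b c d : V} (hab : a ≠ b) (hac : a ≠ c) (had : a ≠ d)
    (hbc : b ≠ c) (hbd : b ≠ d) (hcd : c ≠ d)
    {e0 e1 e2 e3 : E} (he0 : e0 ∈ S) (he1 : e1 ∈ S) (he2 : e2 ∈ S) (he3 : e3 ∈ S)
    (E0 : Ends s t a b e0) (E1 : Ends s t b c e1) (E2 : Ends s t c d e2)
    (E3 : Ends s t d a e3) : False := by
  refine h.nz (con_four s t S he0 he1 he2 he3 E0 E1 E2 E3 hab hac had hbc hbd hcd ?_)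
  refine h.mn {a, b, c, d} a (by simp) (connS_of (a := a) ?_) ⟨e0, he0, ends_ne E0 hab, ?_⟩
  · have hb : ReflTransGen (St s t S (fun v => v ∈ ({a, b, c, d} : Finset V))) a b :=
      ReflTransGen.single ⟨⟨e0, he0, E0⟩, by simp, by simp⟩
    intro x hx
    rw [mem_insert, mem_insert, mem_insert, mem_singleton] at hx
    rcases hx with rfl | rfl | rfl | rfl
    · exact ReflTransGen.refl
    · exact hb
    · exact hb.tail ⟨⟨e1, he1, E1⟩, by simp, by simp⟩
    · exact ReflTransGen.single ⟨⟨e3, he3, ends_comm' E3⟩, by simp, by simp⟩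
  · rcases E0 with ⟨h4, h5⟩ | ⟨h4, h5⟩ <;> simp [h4, h5]

theorem Mc.tri (h : Mc s t S) {a b c : V} (h1 : Nb s t S a b) (h2 : Nb s t S b c)
    (h3 : Nb s t S c a) : False := by
  obtain ⟨n1, e1, m1, E1⟩ := h1
  obtain ⟨n2, e2, m2, E2⟩ := h2
  obtain ⟨n3, e3, m3, E3⟩ := h3
  exact h.notri n1.symm n3 n2.symm m1 m2 m3 E1 E2 E3

theorem Mc.four (h : Mc s t S) {a b c d : V} (hac : a ≠ c) (hbd : b ≠ d) (h1 : Nb s t S a b)
    (h2 : Nb s t S b c) (h3 : Nb s t S c d) (h4 : Nb s t S d a) : False := by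
  obtain ⟨n1, e1, m1, E1⟩ := h1
  obtain ⟨n2, e2, m2, E2⟩ := h2
  obtain ⟨n3, e3, m3, E3⟩ := h3
  obtain ⟨n4, e4, m4, E4⟩ := h4
  exact h.nofour n1.symm hac n4 n2.symm hbd n3.symm m1 m2 m3 m4 E1 E2 E3 E4

theorem Mc.odd18 (h : Mc s t S) : 18 ≤ (odd s t S).card := by
  have h1 : ¬ (odd s t S).card ≤ 16 := by
    intro hc
    rcases main16 s t S h.n1 hc with h2 | h2
    · exact h.nz h2
    · exact h.pq h2
  have h2 := parity s t S (fun _ => true)
  have h3 : cut s t S (fun _ => true) = ∅ := by
    unfold cut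
    rw [Finset.filter_eq_empty_iff]
    intro x _ hx
    exact hx rfl
  rw [h3, card_empty] at h2
  have h4 : (odd s t S).filter (fun _ => (true : Bool) = true) = odd s t S := by
    rw [Finset.filter_eq_self]
    intro x _
    rfl
  rw [h4] at h2
  omega

theorem Mc.cut_nb (h : Mc s t S) (y : V) [DecidablePred (Nb s t S y)] :
    (cut s t S (fun u => decide (u = y))).card = (univ.filter (Nb s t S y)).card := by
  classical
  have hends : ∀ e ∈ cut s t S (fun u => decide (u = y)), ∃ z, z ≠ y ∧ Ends s t y z e := by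
    intro e he
    have h2 := (mem_filter.1 he).2
    by_cases h3 : s e = y
    · refine ⟨t e, fun h4 => h2 (by simp [h3, h4]), Or.inl ⟨h3, rfl⟩⟩
    · by_cases h4 : t e = y
      · exact ⟨s e, h3, Or.inr ⟨rfl, h4⟩⟩
      · exact absurd (by simp [h3, h4]) h2
  have : Nonempty V := ⟨y⟩
  choose! z hz hE using hends
  refine card_bij (fun e _ => z e) ?_ ?_ ?_
  · intro e he
    exact mem_filter.2 ⟨mem_univ _, hz e he, e, (mem_filter.1 he).1, hE e he⟩
  · intro e he e' he' hee
    have h1 := hE e he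
    have h2 := hE e' he'
    rw [← hee] at h2
    exact h.nopar (Ne.symm (hz e he)) (mem_filter.1 he).1 (mem_filter.1 he').1 h1 h2
  · intro w hw
    obtain ⟨-, h1, e, h2, h3⟩ := mem_filter.1 hw
    have he : e ∈ cut s t S (fun u => decide (u = y)) := by
      refine mem_filter.2 ⟨h2, ?_⟩
      rcases h3 with ⟨h4, h5⟩ | ⟨h4, h5⟩ <;> simp [h4, h5, h1]
    refine ⟨e, he, ?_⟩
    have h6 := hE e he
    have h7 := hz e he
    rcases h3 with ⟨h4, h5⟩ | ⟨h4, h5⟩ <;> rcases h6 with ⟨h8, h9⟩ | ⟨h8, h9⟩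
    · rw [← h9, h5]
    · exact absurd (h8.symm.trans h4) h7
    · exact absurd (h9.symm.trans h5) h7
    · rw [← h8, h4]

theorem Mc.odd_nb (h : Mc s t S) (y : V) [DecidablePred (Nb s t S y)] :
    y ∈ odd s t S ↔ (univ.filter (Nb s t S y)).card % 2 = 1 := by
  rw [odd_iff_cut, h.cut_nb y]

theorem Mc.nb_ne_one (h : Mc s t S) (y : V) [DecidablePred (Nb s t S y)] :
    (univ.filter (Nb s t S y)).card ≠ 1 := by
  rw [← h.cut_nb y]
  exact h.n1 _

theorem Mc.nb_ne_two (h : Mc s t S) (y : V) [DecidablePred (Nb s t S y)] :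
    (univ.filter (Nb s t S y)).card ≠ 2 := by
  classical
  rw [← h.cut_nb y]
  intro h2
  obtain ⟨e, e', hee, hcut⟩ := card_eq_two.1 h2
  have he : e ∈ cut s t S (fun u => decide (u = y)) := by rw [hcut]; simp
  have h3 := (mem_filter.1 he)
  have : ∃ a, y ≠ a ∧ Ends s t y a e := by
    by_cases h4 : s e = y
    · refine ⟨t e, fun h5 => h3.2 (by simp [h4, ← h5]), Or.inl ⟨h4, rfl⟩⟩
    · by_cases h5 : t e = y
      · exact ⟨s e, Ne.symm h4, Or.inr ⟨rfl, h5⟩⟩
      · exact absurd (by simp [h4, h5]) h3.2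
  obtain ⟨a, hya, hE⟩ := this
  refine h.nz (con2 s t S h3.1 hE hya hee hcut (fun v => if v = y then a else v) (by simp)
    (fun v hv => by simp [hv]) ?_)
  have h6 := h.mn {a, y} a (by simp) (connS_of (a := a) (by
    intro x hx
    rw [mem_insert, mem_singleton] at hx
    rcases hx with rfl | rfl
    · exact ReflTransGen.refl
    · exact ReflTransGen.single ⟨⟨e, h3.1, ends_comm' hE⟩, by simp, by simp⟩))
    ⟨e, h3.1, ends_ne hE hya, by rcases hE with ⟨h4, h5⟩ | ⟨h4, h5⟩ <;> simp [h4, h5]⟩
  have h7 : ∀ v : V, (if v ∈ ({a, y} : Finset V) then a else v) = (if v = y then a else v) := by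
    intro v
    by_cases h8 : v = y
    · simp [h8]
    · by_cases h9 : v = a
      · simp [h9]
      · simp [h8, h9]
  simpa only [h7] using h6

/-- the component of `v` -/
noncomputable def comp (s t : E → V) (S : Finset E) (v : V) : Finset V :=
  haveI := Classical.decPred (ReflTransGen (fun u w => ∃ e ∈ S, Ends s t u w e) v)
  univ.filter (ReflTransGen (fun u w => ∃ e ∈ S, Ends s t u w e) v)

theorem mem_comp {v x : V} :
    x ∈ comp s t S v ↔ ReflTransGen (fun u w => ∃ e ∈ S, Ends s t u w e) v x := by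
  classical
  unfold comp
  rw [mem_filter]
  exact ⟨fun h => h.2, fun h => ⟨mem_univ _, h⟩⟩

theorem comp_closed {v : V} {e : E} (he : e ∈ S) : s e ∈ comp s t S v ↔ t e ∈ comp s t S v := by
  rw [mem_comp, mem_comp]
  exact ⟨fun h => h.tail ⟨e, he, Or.inl ⟨rfl, rfl⟩⟩, fun h => h.tail ⟨e, he, Or.inr ⟨rfl, rfl⟩⟩⟩

theorem comp_conn (v : V) : ConnS s t S (fun x => x ∈ comp s t S v) := by
  refine connS_of (a := v) ?_
  intro x hx
  rw [mem_comp] at hx
  induction hx with
  | refl => exact ReflTransGen.refl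
  | tail h1 h2 ih =>
    exact ih.tail ⟨h2, mem_comp.2 h1, mem_comp.2 (h1.tail h2)⟩

theorem comp_symm {v x : V} (h : x ∈ comp s t S v) : v ∈ comp s t S x := by
  rw [mem_comp] at h ⊢
  exact rtg_symm (fun u w ⟨e, he, h⟩ => ⟨e, he, ends_comm' h⟩) h

/-- conservation outside a contracted set -/
theorem cons_out {A : Finset V} {a : V} (ha : a ∈ A) {φ : E → F}
    (h : ∀ v, Cons (fun e => if s e ∈ A then a else s e) (fun e => if t e ∈ A then a else t e)
      S φ v) (x : V) (hx : x ∉ A) : Cons s t S φ x := by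
  have h1 := h x
  unfold Cons at h1 ⊢
  have key : ∀ y : V, ((if y ∈ A then a else y) = x) ↔ y = x := by
    intro y
    by_cases hy : y ∈ A
    · rw [if_pos hy]
      constructor
      · intro h; exact absurd (h ▸ ha) hx
      · intro h; exact absurd (h ▸ hy) hx
    · rw [if_neg hy]
  simpa only [key] using h1

/-- at most one component has edges which are not loops -/
theorem Mc.one_comp (h : Mc s t S) {v w x y : V} (hv : Nb s t S v x) (hw : Nb s t S w y) :
    w ∈ comp s t S v := by
  classical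
  by_contra hcon
  have hmem : ∀ {a b : V}, Nb s t S a b → ∃ e ∈ S, s e ≠ t e ∧ s e ∈ comp s t S a ∧
      t e ∈ comp s t S a := by
    rintro a b ⟨hne, e, he, hE⟩
    refine ⟨e, he, ends_ne hE (Ne.symm hne), ?_⟩
    have h0 : a ∈ comp s t S a := mem_comp.2 ReflTransGen.refl
    rcases hE with ⟨h4, h5⟩ | ⟨h4, h5⟩
    · have : s e ∈ comp s t S a := by rw [h4]; exact h0
      exact ⟨this, (comp_closed he).1 this⟩
    · have : t e ∈ comp s t S a := by rw [h5]; exact h0
      exact ⟨(comp_closed he).2 this, this⟩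
  obtain ⟨φ1, p1, p2⟩ := h.mn (comp s t S v) v (mem_comp.2 ReflTransGen.refl) (comp_conn v) (hmem hv)
  obtain ⟨φ2, q1, q2⟩ := h.mn (comp s t S w) w (mem_comp.2 ReflTransGen.refl) (comp_conn w) (hmem hw)
  have hdis : ∀ z, z ∈ comp s t S v → z ∉ comp s t S w := by
    intro z hz hz'
    apply hcon
    have h1 := comp_symm hz'
    rw [mem_comp] at hz h1 ⊢
    exact hz.trans h1
  refine h.nz ⟨fun e => if s e ∈ comp s t S v then φ2 e else φ1 e, fun e he => ?_, fun z => ?_⟩
  · by_cases h1 : s e ∈ comp s t S v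
    · simp only [h1, if_true]; exact q1 e he
    · simp only [h1, if_false]; exact p1 e he
  · by_cases hz : z ∈ comp s t S v
    · have h1 := cons_out (mem_comp.2 ReflTransGen.refl) q2 z (hdis z hz)
      unfold Cons at h1 ⊢
      refine Eq.trans (Finset.sum_congr rfl fun e he => ?_) h1
      have hc := comp_closed (s := s) (t := t) (v := v) he
      by_cases h3 : s e = z
      · have h4 : s e ∈ comp s t S v := h3 ▸ hz
        simp only [h4, if_true]
      · by_cases h5 : t e = z
        · have h4 : s e ∈ comp s t S v := hc.2 (h5 ▸ hz)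
          simp only [h4, if_true]
        · simp only [h3, h5, if_false]
    · have h1 := cons_out (mem_comp.2 ReflTransGen.refl) p2 z hz
      unfold Cons at h1 ⊢
      refine Eq.trans (Finset.sum_congr rfl fun e he => ?_) h1
      have hc := comp_closed (s := s) (t := t) (v := v) he
      by_cases h3 : s e = z
      · have h4 : s e ∉ comp s t S v := h3 ▸ hz
        simp only [h4, if_false]
      · by_cases h5 : t e = z
        · have h4 : s e ∉ comp s t S v := fun h => (h5 ▸ hz) (hc.1 h)
          simp only [h4, if_false]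
        · simp only [h3, h5, if_false]

/-- the minimal contraction has a long induced path -/
theorem Mc.long (h : Mc s t S) (K : ℕ) (f : ℕ) (l : List ℕ)
    (hl : (check K f 1 0 l).isSome = true)
    (hpath : ∀ p : Fin K → V, Function.Injective p →
      ¬ ∀ i j : Fin K, i < j → (Nb s t S (p i) (p j) ↔ i.val + 1 = j.val)) : False := by
  classical
  have hR : Hyp (Nb s t S) K := by
    refine ⟨fun a b => nb_comm, fun a ha => ha.1 rfl, fun a b c => h.tri,
      fun a b c d => h.four, ?_, hpath⟩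
    intro a b hab m hm
    have h1 : 0 < (univ.filter (Nb s t S a)).card :=
      card_pos.2 ⟨b, mem_filter.2 ⟨mem_univ _, hab⟩⟩
    have h2 := h.nb_ne_one a
    have h3 := h.nb_ne_two a
    have h4 : m.toFinset.card < (univ.filter (Nb s t S a)).card := by
      have := List.toFinset_card_le m
      omega
    obtain ⟨w, hw, hw'⟩ := Finset.exists_mem_notMem_of_card_lt_card h4
    exact ⟨w, (mem_filter.1 hw).2, fun h => hw' (List.mem_toFinset.2 h)⟩
  have h18 := h.odd18
  have hnb : ∀ y ∈ odd s t S, ∃ z, Nb s t S y z := by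
    intro y hy
    rw [h.odd_nb y] at hy
    have h1 : 0 < (univ.filter (Nb s t S y)).card := by omega
    obtain ⟨z, hz⟩ := card_pos.1 h1
    exact ⟨z, (mem_filter.1 hz).2⟩
  obtain ⟨v, hv⟩ : (odd s t S).Nonempty := card_pos.1 (by omega)
  obtain ⟨b, hb⟩ := hnb v hv
  obtain ⟨T, hT1, hT2, hT3⟩ := main_search hR f l hl v b hb
  have hsub : odd s t S ⊆ T.toFinset := by
    intro y hy
    obtain ⟨z, hz⟩ := hnb y hy
    have h1 := h.one_comp hb hz
    rw [mem_comp] at h1
    rw [List.mem_toFinset]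
    clear hz hy
    induction h1 with
    | refl => exact hT2
    | tail hpq0 h2 ih =>
      rename_i p q
      by_cases hpq : q = p
      · rw [hpq]; exact ih
      · exact hT3 _ ih _ ⟨hpq, h2⟩
  have h1 := card_le_card hsub
  have h2 := List.toFinset_card_le T
  omega

end

/-- geodesics -/
theorem geo {Γ : SimpleGraph V} {x y : V} (w : Γ.Walk x y) (hw : w.length = Γ.dist x y) :
    ∀ i, i ≤ w.length → Γ.dist x (w.getVert i) = i := by
  intro i hi
  have h1 : Γ.dist x (w.getVert i) ≤ i := by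
    have := SimpleGraph.dist_le (w.take i)
    rw [SimpleGraph.Walk.take_length] at this
    omega
  have h2 : Γ.Reachable x (w.getVert i) := ⟨w.take i⟩
  obtain ⟨r, hr⟩ := h2.exists_walk_length_eq_dist
  have h3 := SimpleGraph.dist_le (r.append (w.drop i))
  rw [SimpleGraph.Walk.length_append, SimpleGraph.Walk.drop_length] at h3
  omega

/-- induced paths of a contraction can be lifted -/
theorem lift_path {s t : E → V} {S : Finset E} {π : V → V} (hπ : FC s t S π) {K : ℕ} (hK : 2 ≤ K)
    (q : Fin K → V) (hq : Function.Injective q)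
    (hq' : ∀ i j : Fin K, i < j →
      (Nb (fun e => π (s e)) (fun e => π (t e)) S (q i) (q j) ↔ i.val + 1 = j.val)) :
    ∃ p : Fin K → V, Function.Injective p ∧
      ∀ i j : Fin K, i < j → (Nb s t S (p i) (p j) ↔ i.val + 1 = j.val) := by
  classical
  set U : V → Prop := fun x => ∃ i, π x = q i with hU
  let Γ : SimpleGraph V :=
    { Adj := fun u w => Nb s t S u w ∧ U u ∧ U w
      symm := ⟨fun u w h => ⟨nb_comm h.1, h.2.2, h.2.1⟩⟩
      loopless := ⟨fun u h => h.1.1 rfl⟩ }
  have hreach : ∀ (P : V → Prop), (∀ x, P x → U x) → ∀ u w, ReflTransGen (St s t S P) u w →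
      Γ.Reachable u w := by
    intro P hP u w huw
    induction huw with
    | refl => exact SimpleGraph.Reachable.refl _
    | tail hab0 h2 ih =>
      rename_i a b
      obtain ⟨h3, h4, h5⟩ := h2
      by_cases hab : b = a
      · rw [hab]; exact ih
      · have : Γ.Adj a b := ⟨⟨hab, h3⟩, hP _ h4, hP _ h5⟩
        exact ih.trans this.reachable
  have hedge : ∀ i : ℕ, ∀ hi : i + 1 < K, ∃ a b, π a = q ⟨i, by omega⟩ ∧ π b = q ⟨i + 1, hi⟩ ∧
      Γ.Adj a b := by
    intro i hi
    have h1 := (hq' ⟨i, by omega⟩ ⟨i + 1, hi⟩ (by simp)).2 rfl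
    obtain ⟨hne, e, he, hE⟩ := h1
    rcases hE with ⟨h4, h5⟩ | ⟨h4, h5⟩
    · refine ⟨s e, t e, h4, h5, ⟨?_, e, he, Or.inl ⟨rfl, rfl⟩⟩, ⟨_, h4⟩, ⟨_, h5⟩⟩
      intro h6
      exact hne (by rw [← h4, ← h5]; exact congrArg π h6)
    · refine ⟨t e, s e, h5, h4, ⟨?_, e, he, Or.inr ⟨rfl, rfl⟩⟩, ⟨_, h5⟩, ⟨_, h4⟩⟩
      intro h6
      exact hne (by rw [← h4, ← h5]; exact congrArg π h6)
  have hall : ∀ i : ℕ, ∀ hi : i < K, ∀ u w, π u = q ⟨0, by omega⟩ → π w = q ⟨i, hi⟩ →
      Γ.Reachable u w := by
    intro i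
    induction i with
    | zero =>
      intro hi u w hu hw
      exact hreach _ (fun x hx => ⟨_, hx.trans hu⟩) u w (hπ u w (hu.trans hw.symm))
    | succ i ih =>
      intro hi u w hu hw
      obtain ⟨a, b, ha, hb, hab⟩ := hedge i hi
      refine ((ih (by omega) u a hu ha).trans hab.reachable).trans ?_
      exact hreach _ (fun x hx => ⟨_, hx.trans hb⟩) b w (hπ b w (hb.trans hw.symm))
  have hlayer : ∀ u w (p : Γ.Walk u w) (i j : Fin K), π u = q i → π w = q j →
      j.val ≤ i.val + p.length := by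
    intro u w p
    induction p with
    | nil =>
      intro i j hi hj
      have : i = j := hq (hi.symm.trans hj)
      subst this
      simp
    | cons hadj p ih =>
      rename_i a b c
      intro i j hi hj
      obtain ⟨h1, h2, k, hk⟩ := hadj
      have h3 := ih k j hk hj
      have h4 : k.val ≤ i.val + 1 := by
        rcases lt_trichotomy i k with h5 | h5 | h5
        · have h6 : Nb (fun e => π (s e)) (fun e => π (t e)) S (q i) (q k) := by
            obtain ⟨hne, e, he, hE⟩ := h1
            refine ⟨fun h => absurd (hq h) (ne_of_gt h5), e, he, ?_⟩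
            rcases hE with ⟨h4, h5⟩ | ⟨h4, h5⟩
            · exact Or.inl ⟨by rw [← hi]; exact congrArg π h4, by rw [← hk]; exact congrArg π h5⟩
            · exact Or.inr ⟨by rw [← hk]; exact congrArg π h4, by rw [← hi]; exact congrArg π h5⟩
          have := (hq' i k h5).1 h6
          omega
        · subst h5; omega
        · have : k.val < i.val := h5
          omega
      rw [SimpleGraph.Walk.length_cons]
      omega
  obtain ⟨x0, _, hx0, _, hadj0⟩ := hedge 0 (by omega)
  obtain ⟨_, x1, _, hx1, _⟩ := hedge (K - 2) (by omega)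
  have hx1' : π x1 = q ⟨K - 1, by omega⟩ := by
    rw [hx1]
    congr 1
    apply Fin.ext
    show K - 2 + 1 = K - 1
    omega
  obtain ⟨w, hw⟩ := (hall (K - 1) (by omega) x0 x1 hx0 hx1').exists_walk_length_eq_dist
  have hlen := hlayer x0 x1 w ⟨0, by omega⟩ ⟨K - 1, by omega⟩ hx0 hx1'
  have hlen' : K - 1 ≤ w.length := by simpa using hlen
  have hg := geo w hw
  have hUw : ∀ i, i ≤ w.length → U (w.getVert i) := by
    intro i hi
    rcases Nat.eq_zero_or_pos i with rfl | hpos
    · rw [SimpleGraph.Walk.getVert_zero]; exact ⟨_, hx0⟩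
    · obtain ⟨j, rfl⟩ : ∃ j, i = j + 1 := ⟨i - 1, by omega⟩
      exact (w.adj_getVert_succ (i := j) (by omega)).2.2
  refine ⟨fun i => w.getVert i.val, ?_, ?_⟩
  · intro i j hij
    have h1 := hg i.val (by omega)
    have h2 := hg j.val (by omega)
    have h3 : w.getVert i.val = w.getVert j.val := hij
    rw [h3, h2] at h1
    exact Fin.ext h1.symm
  · intro i j hij
    have hi : i.val ≤ w.length := by omega
    have hj : j.val ≤ w.length := by omega
    have hij' : i.val < j.val := hij
    constructor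
    · intro h1
      have h2 : Γ.Adj (w.getVert i.val) (w.getVert j.val) := ⟨h1, hUw _ hi, hUw _ hj⟩
      have h3 := SimpleGraph.dist_le ((w.take i.val).concat h2)
      rw [SimpleGraph.Walk.length_concat, SimpleGraph.Walk.take_length, hg _ hj] at h3
      omega
    · intro h1
      have h2 := (w.adj_getVert_succ (i := i.val) (by omega)).1
      have h3 : w.getVert j.val = w.getVert (i.val + 1) := by rw [h1]
      show Nb s t S (w.getVert i.val) (w.getVert j.val)
      rw [h3]
      exact h2

end Pool.Agent.R140.PK
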