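import Pool.Agent.R140.PK.Lift
import Pool.Agent.R140.PK.Cert8

set_option autoImplicit false

namespace Pool.Agent.R140.PK

open Pool.Agent

/-- bridgeless multigraphs without induced paths with eight vertices -/
theorem main8 {V E : Type} [Fintype V] [DecidableEq V] [Fintype E] [DecidableEq E] (s t : E → V)
    (hn : TH362.TF.N1 s t Finset.univ)
    (hp : ¬ ∃ p : Fin 8 → V, Function.Injective p ∧ ∀ i j : Fin 8, i < j →
      ((∃ e, (s e = p i ∧ t e = p j) ∨ (s e = p j ∧ t e = p i)) ↔ i.val + 1 = j.val)) :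
    TH362.TF.NZ s t Finset.univ ∨ TH362.TF.PQ s t Finset.univ := by
  classical
  by_cases h1 : TH362.TF.NZ s t Finset.univ
  · exact Or.inl h1
  by_cases h2 : TH362.TF.PQ s t Finset.univ
  · exact Or.inr h2
  exfalso
  obtain ⟨π, hπ, hM⟩ := exists_Mc s t Finset.univ hn h1 h2
  refine hM.long 8 25 data8 cert8 ?_
  intro q hq hq'
  obtain ⟨p, hp1, hp2⟩ := lift_path hπ (by omega) q hq hq'
  refine hp ⟨p, hp1, fun i j hij => ?_⟩
  rw [← hp2 i j hij]
  constructor
  · rintro ⟨e, he⟩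
    exact ⟨fun h => absurd (hp1 h) (ne_of_gt hij), e, Finset.mem_univ e, he⟩
  · rintro ⟨_, e, _, he⟩
    exact ⟨e, he⟩

end Pool.Agent.R140.PK
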