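import Pool.Agent.R140.PK.Cover
import Pool.Agent.H23.PS.OcFin

set_option autoImplicit false
set_option linter.unusedSectionVars false
set_option linter.unusedVariables false

/-!
# Orientable five cycle double covers: sums along cuts with three edges, the Petersen graph
-/

namespace Pool.Agent.R140.PK

open Finset Relation Pool.Agent.TH362.TF Pool.Agent.TH362.TF.Four Pool.Agent.R890.FF Pool.Agent
open Pool.Agent.TH362.TF.Contr

/-- the five coordinates -/
abbrev N5 := Fin 5 → ℤ

/-- difference of two unit vectors -/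
def rt (i j : Fin 5) : N5 := fun k => (if i = k then 1 else 0) - (if j = k then 1 else 0)

theorem rt_neg (i j : Fin 5) : - rt i j = rt j i := by
  funext k
  show -((if i = k then 1 else 0) - (if j = k then 1 else 0) : ℤ) = _
  unfold rt
  ring

section
variable {V E : Type} [Fintype V] [DecidableEq V] [Fintype E] [DecidableEq E]

/-- the net flow out of `v` -/
def Bd (s t : E → V) (φ : E → N5) (v : V) : N5 :=
  ∑ e, ((if s e = v then φ e else 0) - (if t e = v then φ e else 0))

/-- orientable cycle double covers with five classes -/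
def Fv (s t : E → V) : Prop :=
  ∃ p q : E → Fin 5, (∀ e, p e ≠ q e) ∧ ∀ v, Bd s t (fun e => rt (p e) (q e)) v = 0

theorem bd_apply (s t : E → V) (φ : E → N5) (v : V) (i : Fin 5) :
    Bd s t φ v i = ∑ e with s e = v, φ e i - ∑ e with t e = v, φ e i := by
  unfold Bd
  rw [Finset.sum_apply, Finset.sum_filter, Finset.sum_filter, ← Finset.sum_sub_distrib]
  refine Finset.sum_congr rfl fun e _ => ?_
  by_cases h1 : s e = v <;> by_cases h2 : t e = v <;> simp [h1, h2]

theorem fv_iff (s t : E → V) : Fv s t ↔ H23.PS.FiveClasses (H160R2.HF.OrGraph.mk s t) := by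
  constructor
  · rintro ⟨p, q, h1, h2⟩
    refine ⟨p, q, h1, fun i v => ?_⟩
    have h3 := congrFun (h2 v) i
    rw [bd_apply] at h3
    exact sub_eq_zero.1 h3
  · rintro ⟨p, q, h1, h2⟩
    refine ⟨p, q, h1, fun v => ?_⟩
    funext i
    rw [bd_apply]
    exact sub_eq_zero.2 (h2 i v)

theorem fv_of_nz {s t : E → V} (h : NZ s t univ) : Fv s t := by
  classical
  rw [fv_iff]
  obtain ⟨φ, h1, h2⟩ := h
  have key : ∀ (g : F →+ ZMod 2) (v : V), Even ((H160R2.HF.OrGraph.mk s t).deg
      (univ.filter (fun e => g (φ e) = 1)) v) := by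
    intro g v
    have h3 : B s t univ (fun e => g (φ e)) v = 0 := by
      rw [B_hom g s t univ φ v]
      have h4 : B s t univ φ v = 0 := h2 v
      rw [h4, map_zero]
    unfold B at h3
    unfold H160R2.HF.OrGraph.deg
    rw [← ZMod.natCast_eq_zero_iff_even, ← h3, Finset.filter_filter, Finset.filter_filter,
      Finset.card_filter, Finset.card_filter, ← Finset.sum_add_distrib]
    push_cast
    refine Finset.sum_congr rfl fun e _ => ?_
    rcases two01 (g (φ e)) with h5 | h5 <;> by_cases h6 : s e = v <;> by_cases h7 : t e = v <;>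
      simp [h5, h6, h7]
  refine H23.PS.fiveClasses_of_cover _ (univ.filter (fun e => AddMonoidHom.fst _ _ (φ e) = 1))
    (univ.filter (fun e => AddMonoidHom.snd _ _ (φ e) = 1)) (key (AddMonoidHom.fst _ _))
    (key (AddMonoidHom.snd _ _)) ?_
  ext e
  simp only [mem_union, mem_filter, mem_univ, true_and, iff_true]
  have h3 := h1 e (mem_univ e)
  have h4 : ∀ y : F, y ≠ 0 → y.1 = 1 ∨ y.2 = 1 := by decide
  exact h4 _ h3

theorem flow_cutN {s t : E → V} {φ : E → N5} (x : V → Bool)
    (h : ∀ v, x v = true → Bd s t φ v = 0) :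
    ∑ e ∈ cut s t univ x, (if x (s e) = true then φ e else - φ e) = 0 := by
  have h1 : ∑ v ∈ univ.filter (fun v => x v = true),
      ∑ e : E, ((if s e = v then φ e else 0) - (if t e = v then φ e else 0)) = 0 :=
    Finset.sum_eq_zero fun v hv => h v (by simpa using hv)
  rw [Finset.sum_comm] at h1
  refine Eq.trans ?_ h1
  unfold cut
  rw [Finset.sum_filter]
  refine Finset.sum_congr rfl fun e _ => ?_
  rw [Finset.sum_sub_distrib, Finset.sum_ite_eq, Finset.sum_ite_eq]
  simp only [Finset.mem_filter, Finset.mem_univ, true_and]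
  cases x (s e) <;> cases x (t e) <;> simp

theorem Bd_cut (s t : E → V) (φ : E → N5) (v : V) :
    Bd s t φ v = ∑ e ∈ cut s t univ (fun u => decide (u = v)),
      (if s e = v then φ e else - φ e) := by
  unfold Bd cut
  rw [Finset.sum_filter]
  refine Finset.sum_congr rfl fun e _ => ?_
  by_cases h1 : s e = v <;> by_cases h2 : t e = v <;> simp [h1, h2]

theorem Bd_hom (f : N5 →+ N5) (s t : E → V) (φ : E → N5) (v : V) :
    Bd s t (fun e => f (φ e)) v = f (Bd s t φ v) := by
  unfold Bd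
  rw [map_sum]
  refine Finset.sum_congr rfl fun e _ => ?_
  rw [map_sub]
  by_cases h1 : s e = v <;> by_cases h2 : t e = v <;> simp [h1, h2]

theorem Bd_out {s t : E → V} {A : Finset V} {a : V} (ha : a ∈ A) {φ : E → N5}
    (h : ∀ v, Bd (ctr A a s) (ctr A a t) φ v = 0) (x : V) (hx : x ∉ A) :
    Bd s t φ x = 0 := by
  have h1 := h x
  unfold Bd ctr at h1
  unfold Bd
  have key : ∀ y : V, ((if y ∈ A then a else y) = x) ↔ y = x := by
    intro y
    by_cases hy : y ∈ A
    · rw [if_pos hy]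
      constructor
      · intro h; exact absurd (h ▸ ha) hx
      · intro h; exact absurd (h ▸ hy) hx
    · rw [if_neg hy]
  simpa only [key] using h1

theorem three_forms : ∀ a b : Fin 5, a ≠ b → ∀ c d : Fin 5, c ≠ d → ∀ e f : Fin 5, e ≠ f →
    (∀ k : Fin 5, ((if a = k then 1 else 0) + (if c = k then 1 else 0) +
      (if e = k then 1 else 0) : ℕ) = (if b = k then 1 else 0) + (if d = k then 1 else 0) +
      (if f = k then 1 else 0)) →
    (b = c ∧ d = e ∧ f = a) ∨ (a = d ∧ c = f ∧ e = b) := by decide +kernel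

theorem three_rt {a b c d e f : Fin 5} (h1 : a ≠ b) (h2 : c ≠ d) (h3 : e ≠ f)
    (h : rt a b + (rt c d + rt e f) = 0) :
    (b = c ∧ d = e ∧ f = a) ∨ (a = d ∧ c = f ∧ e = b) := by
  refine three_forms a b h1 c d h2 e f h3 fun k => ?_
  have h4 := congrFun h k
  have h5 : ((if a = k then 1 else 0) - (if b = k then 1 else 0) +
      (((if c = k then 1 else 0) - (if d = k then 1 else 0)) +
      ((if e = k then 1 else 0) - (if f = k then 1 else 0))) : ℤ) = 0 := h4
  split_ifs at h5 ⊢ <;> omega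

theorem perm3 : ∀ a b c : Fin 5, a ≠ b → a ≠ c → b ≠ c →
    ((Equiv.swap 0 a * Equiv.swap 1 (Equiv.swap 0 a b)) *
      Equiv.swap 2 ((Equiv.swap 0 a * Equiv.swap 1 (Equiv.swap 0 a b)).symm c)) 0 = a ∧
    ((Equiv.swap 0 a * Equiv.swap 1 (Equiv.swap 0 a b)) *
      Equiv.swap 2 ((Equiv.swap 0 a * Equiv.swap 1 (Equiv.swap 0 a b)).symm c)) 1 = b ∧
    ((Equiv.swap 0 a * Equiv.swap 1 (Equiv.swap 0 a b)) *
      Equiv.swap 2 ((Equiv.swap 0 a * Equiv.swap 1 (Equiv.swap 0 a b)).symm c)) 2 = c := by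
  decide +kernel

theorem perm33 {a b c a' b' c' : Fin 5} (h1 : a ≠ b) (h2 : a ≠ c) (h3 : b ≠ c)
    (h1' : a' ≠ b') (h2' : a' ≠ c') (h3' : b' ≠ c') :
    ∃ σ : Equiv.Perm (Fin 5), σ a' = a ∧ σ b' = b ∧ σ c' = c := by
  obtain ⟨x1, x2, x3⟩ := perm3 a b c h1 h2 h3
  obtain ⟨y1, y2, y3⟩ := perm3 a' b' c' h1' h2' h3'
  set τ : Equiv.Perm (Fin 5) := (Equiv.swap 0 a * Equiv.swap 1 (Equiv.swap 0 a b)) *
      Equiv.swap 2 ((Equiv.swap 0 a * Equiv.swap 1 (Equiv.swap 0 a b)).symm c) with hτ
  set τ' : Equiv.Perm (Fin 5) := (Equiv.swap 0 a' * Equiv.swap 1 (Equiv.swap 0 a' b')) *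
      Equiv.swap 2 ((Equiv.swap 0 a' * Equiv.swap 1 (Equiv.swap 0 a' b')).symm c') with hτ'
  refine ⟨τ'.symm.trans τ, ?_, ?_, ?_⟩
  · rw [Equiv.trans_apply, ← y1, Equiv.symm_apply_apply]; exact x1
  · rw [Equiv.trans_apply, ← y2, Equiv.symm_apply_apply]; exact x2
  · rw [Equiv.trans_apply, ← y3, Equiv.symm_apply_apply]; exact x3

/-- the first class of the edge, oriented out of `A` -/
def oP (s : E → V) (A : Finset V) (p q : E → Fin 5) (e : E) : Fin 5 :=
  if s e ∈ A then p e else q e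

/-- solutions can be brought into the first form by changing all signs -/
theorem norm {s t : E → V} {A : Finset V} {K : V → Prop} {p q : E → Fin 5} (h1 : ∀ e, p e ≠ q e)
    (h2 : ∀ v, K v → Bd s t (fun e => rt (p e) (q e)) v = 0) {x y z : E}
    (h3 : rt (oP s A p q x) (oP s A q p x) + (rt (oP s A p q y) (oP s A q p y) +
      rt (oP s A p q z) (oP s A q p z)) = 0) :
    ∃ p' q' : E → Fin 5, (∀ e, p' e ≠ q' e) ∧
      (∀ v, K v → Bd s t (fun e => rt (p' e) (q' e)) v = 0) ∧
      oP s A q' p' x = oP s A p' q' y ∧ oP s A q' p' y = oP s A p' q' z ∧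
      oP s A q' p' z = oP s A p' q' x := by
  have hne : ∀ e, oP s A p q e ≠ oP s A q p e := by
    intro e
    unfold oP
    by_cases h : s e ∈ A
    · simp only [h, if_true]; exact h1 e
    · simp only [h, if_false]; exact (h1 e).symm
  rcases three_rt (hne x) (hne y) (hne z) h3 with ⟨a1, a2, a3⟩ | ⟨a1, a2, a3⟩
  · exact ⟨p, q, h1, h2, a1, a2, a3⟩
  · refine ⟨q, p, fun e => (h1 e).symm, fun v hv => ?_, a1, a2, a3⟩
    have h4 := h2 v hv
    have h5 : Bd s t (fun e => rt (q e) (p e)) v = - Bd s t (fun e => rt (p e) (q e)) v := by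
      unfold Bd
      rw [← Finset.sum_neg_distrib]
      refine Finset.sum_congr rfl fun e _ => ?_
      beta_reduce
      rw [← rt_neg (p e) (q e)]
      by_cases h6 : s e = v <;> by_cases h7 : t e = v <;> simp [h6, h7]
    rw [h5, h4, neg_zero]

/-- permutation of the coordinates -/
def permN (σ : Equiv.Perm (Fin 5)) : N5 →+ N5 :=
  { toFun := fun x k => x (σ.symm k), map_zero' := rfl, map_add' := fun _ _ => rfl }

theorem permN_rt (σ : Equiv.Perm (Fin 5)) (i j : Fin 5) : permN σ (rt i j) = rt (σ i) (σ j) := by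
  funext k
  show (if i = σ.symm k then 1 else 0) - (if j = σ.symm k then 1 else 0) =
    ((if σ i = k then 1 else 0) - (if σ j = k then 1 else 0) : ℤ)
  simp only [Equiv.eq_symm_apply]

/-- sums along cuts with three edges -/
theorem fv_sum {s t : E → V} (A1 A2 : Finset V) (a1 a2 : V) (h1 : a1 ∈ A1) (h2 : a2 ∈ A2)
    (hd : Disjoint A1 A2) (h3 : (cu s t A1).card = 3) (hc : cu s t A2 = cu s t A1)
    (c1 : Fv (ctr A1 a1 s) (ctr A1 a1 t)) (c2 : Fv (ctr A2 a2 s) (ctr A2 a2 t)) : Fv s t := by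
  classical
  obtain ⟨p0, q0, u1, u2⟩ := c1
  obtain ⟨p0', q0', w1, w2⟩ := c2
  have u3 := Bd_out h1 u2
  have w3 := Bd_out h2 w2
  obtain ⟨x, y, z, hxy, hxz, hyz, hS⟩ := card_eq_three.1 h3
  have hφ : ∑ e ∈ cu s t A1, rt (oP s A1 p0 q0 e) (oP s A1 q0 p0 e) = 0 := by
    have h4 := flow_cutN (s := s) (t := t) (φ := fun e => rt (p0 e) (q0 e))
      (fun v => !decide (v ∈ A1)) (fun v hv => by
      apply u3
      simpa using hv)
    rw [← neg_eq_zero, ← Finset.sum_neg_distrib]
    refine Eq.trans (Finset.sum_congr ?_ fun e _ => ?_) h4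
    · ext e
      rw [mem_cu]
      unfold cut
      rw [mem_filter]
      by_cases h5 : s e ∈ A1 <;> by_cases h6 : t e ∈ A1 <;> simp [h5, h6]
    · unfold oP
      by_cases h5 : s e ∈ A1
      · simp [h5, rt_neg]
      · simp [h5, rt_neg]
  have hψ : ∑ e ∈ cu s t A1, rt (oP s A1 p0' q0' e) (oP s A1 q0' p0' e) = 0 := by
    have h4 := flow_cutN (s := s) (t := t) (φ := fun e => rt (p0' e) (q0' e))
      (fun v => decide (v ∈ A1)) (fun v hv => by
      apply w3
      intro hv2
      exact (disjoint_left.1 hd) (by simpa using hv) hv2)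
    refine Eq.trans (Finset.sum_congr rfl fun e _ => ?_) h4
    unfold oP
    by_cases h5 : s e ∈ A1
    · simp [h5]
    · simp [h5, rt_neg]
  rw [hS, sum_insert (by simp [hxy, hxz]), sum_pair hyz] at hφ hψ
  obtain ⟨p, q, n1, n2, n3, n4, n5⟩ := norm (K := fun v => v ∉ A1) u1 u3 hφ
  obtain ⟨p', q', m1, m2, m3, m4, m5⟩ := norm (K := fun v => v ∉ A2) w1 w3 hψ
  have hne : ∀ (f g : E → Fin 5), (∀ e, f e ≠ g e) → ∀ e, oP s A1 f g e ≠ oP s A1 g f e := by
    intro f g hfg e
    unfold oP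
    by_cases h : s e ∈ A1
    · simp only [h, if_true]; exact hfg e
    · simp only [h, if_false]; exact (hfg e).symm
  have hne1 := hne p q n1
  have hne2 := hne p' q' m1
  obtain ⟨σ, s1, s2, s3⟩ := perm33 (a := oP s A1 p q x) (b := oP s A1 p q y) (c := oP s A1 p q z)
    (a' := oP s A1 p' q' x) (b' := oP s A1 p' q' y) (c' := oP s A1 p' q' z)
    (n3 ▸ hne1 x) (fun h => (hne1 z) (by rw [n5]; exact h.symm)) (n4 ▸ hne1 y)
    (m3 ▸ hne2 x) (fun h => (hne2 z) (by rw [m5]; exact h.symm)) (m4 ▸ hne2 y)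
  have hag0 : ∀ e, e ∈ cu s t A1 → σ (oP s A1 p' q' e) = oP s A1 p q e ∧
      σ (oP s A1 q' p' e) = oP s A1 q p e := by
    intro e he
    rw [hS, mem_insert, mem_insert, mem_singleton] at he
    rcases he with rfl | rfl | rfl
    · exact ⟨s1, by rw [m3, n3]; exact s2⟩
    · exact ⟨s2, by rw [m4, n4]; exact s3⟩
    · exact ⟨s3, by rw [m5, n5]; exact s1⟩
  have hag : ∀ e, e ∈ cu s t A1 → σ (p' e) = p e ∧ σ (q' e) = q e := by
    intro e he
    obtain ⟨b1, b2⟩ := hag0 e he
    unfold oP at b1 b2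
    by_cases h : s e ∈ A1
    · simp only [h, if_true] at b1 b2; exact ⟨b1, b2⟩
    · simp only [h, if_false] at b1 b2; exact ⟨b2, b1⟩
  refine ⟨fun e => if s e ∈ A1 ∨ t e ∈ A1 then σ (p' e) else p e,
    fun e => if s e ∈ A1 ∨ t e ∈ A1 then σ (q' e) else q e, fun e => ?_, fun v => ?_⟩
  · by_cases h4 : s e ∈ A1 ∨ t e ∈ A1
    · simp only [h4, if_true]
      exact fun h => m1 e (σ.injective h)
    · simp only [h4, if_false]
      exact n1 e
  · by_cases hv : v ∈ A1
    · have h4 : Bd s t (fun e => permN σ (rt (p' e) (q' e))) v = 0 := by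
        rw [Bd_hom (permN σ) s t (fun e => rt (p' e) (q' e)) v,
          m2 v (fun hv2 => (disjoint_left.1 hd) hv hv2), map_zero]
      refine Eq.trans ?_ h4
      unfold Bd
      refine Finset.sum_congr rfl fun e _ => ?_
      beta_reduce
      rw [permN_rt]
      by_cases h5 : s e = v
      · have h6 : s e ∈ A1 ∨ t e ∈ A1 := Or.inl (h5 ▸ hv)
        simp only [h6, if_true]
      · by_cases h7 : t e = v
        · have h6 : s e ∈ A1 ∨ t e ∈ A1 := Or.inr (h7 ▸ hv)
          simp only [h6, if_true]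
        · simp only [h5, h7, if_false]
    · refine Eq.trans ?_ (n2 v hv)
      unfold Bd
      refine Finset.sum_congr rfl fun e _ => ?_
      have hval : s e = v ∨ t e = v →
          (if s e ∈ A1 ∨ t e ∈ A1 then σ (p' e) else p e) = p e ∧
          (if s e ∈ A1 ∨ t e ∈ A1 then σ (q' e) else q e) = q e := by
        intro h5
        by_cases h6 : s e ∈ A1 ∨ t e ∈ A1
        · rw [if_pos h6, if_pos h6]
          refine hag e ?_
          rw [mem_cu]
          rcases h5 with h5 | h5
          · have h7 : s e ∉ A1 := h5 ▸ hv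
            tauto
          · have h7 : t e ∉ A1 := h5 ▸ hv
            tauto
        · rw [if_neg h6, if_neg h6]; exact ⟨rfl, rfl⟩
      beta_reduce
      by_cases h5 : s e = v
      · rw [(hval (Or.inl h5)).1, (hval (Or.inl h5)).2]
      · by_cases h7 : t e = v
        · rw [(hval (Or.inr h7)).1, (hval (Or.inr h7)).2]
        · simp only [h5, h7, if_false]

/-- an orientable five cycle double cover of the Petersen graph -/
def pp : Fin 10 → Fin 10 → Fin 5 :=
  ![![0, 0, 0, 0, 1, 2, 0, 0, 0, 0],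
    ![1, 0, 0, 0, 0, 0, 2, 0, 0, 0],
    ![0, 2, 0, 0, 0, 0, 0, 3, 0, 0],
    ![0, 0, 3, 0, 2, 0, 0, 0, 0, 0],
    ![2, 0, 0, 3, 0, 0, 0, 0, 0, 1],
    ![0, 0, 0, 0, 0, 0, 0, 2, 4, 0],
    ![0, 1, 0, 0, 0, 0, 0, 0, 2, 4],
    ![0, 0, 2, 0, 0, 4, 0, 0, 0, 3],
    ![0, 0, 0, 2, 0, 0, 4, 0, 0, 0],
    ![0, 0, 0, 0, 3, 0, 1, 4, 0, 0]]

theorem pp_ne : ∀ k l, padj k l = true → pp k l ≠ pp l k := by decide +kernel

theorem pp_sum : ∀ k, ∑ j : Fin 3, rt (pp k (nb k j)) (pp (nb k j) k) = 0 := by decide +kernel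

theorem fv_pet {s t : E → V} {κ : V → Fin 10} {c : Fin 10 → V} (h : PetComp s t κ c)
    (hc : Fv (ctr (univ.image c) (c 0) s) (ctr (univ.image c) (c 0) t)) : Fv s t := by
  classical
  obtain ⟨p, q, p1, p2⟩ := hc
  have hm : ∀ k, c k ∈ univ.image c := fun k => mem_image_of_mem _ (mem_univ _)
  have p3 := Bd_out (hm 0) p2
  have hcl : ∀ e, s e ∈ univ.image c ↔ t e ∈ univ.image c := by
    intro e
    rw [mem_image, mem_image]
    constructor
    · rintro ⟨k, _, hk⟩
      obtain ⟨l, hl⟩ := h.cl e k hk.symm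
      exact ⟨l, mem_univ _, hl.symm⟩
    · rintro ⟨k, _, hk⟩
      obtain ⟨l, hl⟩ := h.cl' e k hk.symm
      exact ⟨l, mem_univ _, hl.symm⟩
  refine ⟨fun e => if s e ∈ univ.image c then
      (if s e = t e then 0 else pp (κ (s e)) (κ (t e))) else p e,
    fun e => if s e ∈ univ.image c then
      (if s e = t e then 1 else pp (κ (t e)) (κ (s e))) else q e, fun e => ?_, fun v => ?_⟩
  · by_cases h1 : s e ∈ univ.image c
    · simp only [h1, if_true]
      by_cases h2 : s e = t e
      · simp only [h2, if_true]; decide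
      · simp only [h2, if_false]
        obtain ⟨k, _, hk⟩ := mem_image.1 h1
        obtain ⟨l, _, hl⟩ := mem_image.1 ((hcl e).1 h1)
        have hkl : k ≠ l := fun h' => h2 (by rw [← hk, ← hl, h'])
        rw [← hk, ← hl, h.kc, h.kc]
        refine pp_ne _ _ (padj_of_ne s t κ h.pq e k l hkl (Or.inl ⟨?_, ?_⟩))
        · rw [← hk, h.kc]
        · rw [← hl, h.kc]
    · simp only [h1, if_false]; exact p1 e
  · by_cases hv : v ∈ univ.image c
    · obtain ⟨k, _, rfl⟩ := mem_image.1 hv
      obtain ⟨e, he1, he2, he3⟩ := h.star k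
      rw [Bd_cut, he3, Finset.sum_image (fun i _ j _ hij => he1 hij)]
      refine Eq.trans (Finset.sum_congr rfl fun j _ => ?_) (pp_sum k)
      have hne : c k ≠ c (nb k j) := fun h' => nb_ne k j (h.inj h').symm
      have h2 : s (e j) ≠ t (e j) := ends_ne (he2 j) hne
      rcases he2 j with ⟨a, b⟩ | ⟨a, b⟩
      · have h1 : s (e j) ∈ univ.image c := by rw [a]; exact hm _
        simp only [h1, h2, if_true, if_false]
        rw [if_pos a, a, b, h.kc, h.kc]
      · have h1 : s (e j) ∈ univ.image c := by rw [a]; exact hm _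
        simp only [h1, h2, if_true, if_false]
        have h4 : s (e j) ≠ c k := by rw [a]; exact hne.symm
        rw [if_neg h4, a, b, h.kc, h.kc, rt_neg]
    · refine Eq.trans ?_ (p3 v hv)
      unfold Bd
      refine Finset.sum_congr rfl fun e _ => ?_
      by_cases h5 : s e = v
      · have h6 : s e ∉ univ.image c := h5 ▸ hv
        simp only [h6, if_false]
      · by_cases h7 : t e = v
        · have h6 : s e ∉ univ.image c := fun h' => hv (h7 ▸ (hcl e).1 h')
          simp only [h6, if_false]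
        · simp only [h5, h7, if_false]

/-- bridgeless graphs without induced paths with eight vertices have orientable five cycle double
covers -/
theorem fv_main (s t : E → V) (hn : N1 s t univ)
    (hp : ¬ ∃ p : Fin 8 → V, Function.Injective p ∧ ∀ i j : Fin 8, i < j →
      ((∃ e, (s e = p i ∧ t e = p j) ∨ (s e = p j ∧ t e = p i)) ↔ i.val + 1 = j.val)) :
    Fv s t := by
  classical
  by_contra hcon
  obtain ⟨π, hπ, hM⟩ := exists_MinP Fv s t hn hcon
  have hp' : ¬ ∃ q : Fin 8 → V, Function.Injective q ∧ ∀ i j : Fin 8, i < j →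
      ((∃ e, (π (s e) = q i ∧ π (t e) = q j) ∨ (π (s e) = q j ∧ π (t e) = q i)) ↔
        i.val + 1 = j.val) := by
    rintro ⟨q, hq, hq'⟩
    obtain ⟨p, hp1, hp2⟩ := lift_path hπ (by omega) q hq (fun i j hij => by
      rw [← hq' i j hij]
      constructor
      · rintro ⟨_, e, _, he⟩
        exact ⟨e, he⟩
      · rintro ⟨e, he⟩
        exact ⟨fun h => absurd (hq h) (ne_of_gt hij), e, mem_univ e, he⟩)
    refine hp ⟨p, hp1, fun i j hij => ?_⟩
    rw [← hp2 i j hij]
    constructor
    · rintro ⟨e, he⟩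
      exact ⟨fun h => absurd (hp1 h) (ne_of_gt hij), e, mem_univ e, he⟩
    · rintro ⟨_, e, _, he⟩
      exact ⟨e, he⟩
  rcases main8 (fun e => π (s e)) (fun e => π (t e)) hM.n1 hp' with h1 | h1
  · exact hM.np (fv_of_nz h1)
  · obtain ⟨κ, c, hc⟩ := hM.pet h1 (fun A1 A2 a1 a2 b1 b2 b3 b4 b5 b6 b7 =>
      fv_sum A1 A2 a1 a2 b1 b2 b3 b4 b5 b6 b7)
    obtain ⟨h2, h3⟩ := hc.conn
    exact hM.np (fv_pet hc (hM.mn _ _ (mem_image_of_mem _ (mem_univ _)) h2 h3))

end

/-- the simple graph version -/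
theorem simple_main {V : Type} [Fintype V] (G : SimpleGraph V)
    (hb : ∀ u v : V, G.Adj u v → (G.deleteEdges {s(u, v)}).Reachable u v)
    (hp : ¬ ∃ p : Fin 8 → V, Function.Injective p ∧
      ∀ i j : Fin 8, i < j → (G.Adj (p i) (p j) ↔ i.val + 1 = j.val)) :
    ∃ (E : Type) (_ : Fintype E) (_ : DecidableEq V) (K : H160R2.HF.OrGraph V E),
      H23.PS.IsOrientation G K ∧ H23.PS.FiveClasses K := by
  classical
  have hpr : ∀ e : G.edgeSet, ∃ a : V × V, e.1 = s(a.1, a.2) := by
    rintro ⟨e, he⟩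
    induction e with
    | _ a b => exact ⟨(a, b), rfl⟩
  choose pr hpr using hpr
  have hadj : ∀ e : G.edgeSet, G.Adj (pr e).1 (pr e).2 := by
    intro e
    have h1 := e.2
    rw [hpr e, SimpleGraph.mem_edgeSet] at h1
    exact h1
  have hex : ∀ u v, G.Adj u v → ∃ e : G.edgeSet, e.1 = s(u, v) := fun u v h =>
    ⟨⟨s(u, v), h⟩, rfl⟩
  have hends : ∀ (e : G.edgeSet) (u v : V), e.1 = s(u, v) ↔
      (((pr e).1 = u ∧ (pr e).2 = v) ∨ ((pr e).2 = u ∧ (pr e).1 = v)) := by
    intro e u v
    rw [hpr e, Sym2.eq_iff]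
    tauto
  refine ⟨G.edgeSet, inferInstance, inferInstance, ⟨fun e => (pr e).1, fun e => (pr e).2⟩,
    ⟨hadj, ?_⟩, ?_⟩
  · intro u v huv
    obtain ⟨e, he⟩ := hex u v huv
    refine ⟨e, (hends e u v).1 he, ?_⟩
    intro e' he'
    apply Subtype.ext
    rw [he]
    exact (hends e' u v).2 he'
  · rw [← fv_iff]
    refine fv_main _ _ ?_ ?_
    · intro x hx
      obtain ⟨e, he⟩ := card_eq_one.1 hx
      have hmem : e ∈ cut (fun e => (pr e).1) (fun e => (pr e).2) univ x := by
        rw [he]; exact mem_singleton_self e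
      have h1 : x (pr e).1 ≠ x (pr e).2 := (mem_filter.1 hmem).2
      apply h1
      have key : ∀ a b, (G.deleteEdges {s((pr e).1, (pr e).2)}).Reachable a b → x a = x b := by
        rintro a b ⟨w⟩
        induction w with
        | nil => rfl
        | cons hadj' _ ih =>
          rename_i a' b' c'
          refine Eq.trans ?_ ih
          rw [SimpleGraph.deleteEdges_adj] at hadj'
          obtain ⟨e', he'⟩ := hex _ _ hadj'.1
          by_contra hne
          have h2 : e' ∈ cut (fun e => (pr e).1) (fun e => (pr e).2) univ x := by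
            refine mem_filter.2 ⟨mem_univ _, ?_⟩
            rcases (hends e' _ _).1 he' with ⟨h3, h4⟩ | ⟨h3, h4⟩
            · show x (pr e').1 ≠ x (pr e').2
              rw [h3, h4]; exact hne
            · show x (pr e').1 ≠ x (pr e').2
              rw [h3, h4]; exact Ne.symm hne
          rw [he, mem_singleton] at h2
          apply hadj'.2
          rw [Set.mem_singleton_iff, ← hpr e, ← he', h2]
      exact key _ _ (hb _ _ (hadj e))
    · rintro ⟨p, h1, h2⟩
      refine hp ⟨p, h1, fun i j hij => ?_⟩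
      rw [← h2 i j hij]
      constructor
      · intro h3
        obtain ⟨e, he⟩ := hex _ _ h3
        refine ⟨e, ?_⟩
        rcases (hends e _ _).1 he with ⟨h4, h5⟩ | ⟨h4, h5⟩
        · exact Or.inl ⟨h4, h5⟩
        · exact Or.inr ⟨h5, h4⟩
      · rintro ⟨e, ⟨h4, h5⟩ | ⟨h4, h5⟩⟩
        · have := hadj e
          rw [h4, h5] at this
          exact this
        · have := hadj e
          rw [h4, h5] at this
          exact this.symm

end Pool.Agent.R140.PK
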