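import Pool.Agent.R140.PK.Main8
import Pool.Agent.TH362.TF.Contr

set_option autoImplicit false
set_option linter.unusedSectionVars false
set_option linter.unusedVariables false

/-!
# Minimal contractions without a given property: cuts with three edges and Petersen quotients
-/

namespace Pool.Agent.R140.PK

open Finset Relation Pool.Agent.TH362.TF Pool.Agent.TH362.TF.Four Pool.Agent.R890.FF Pool.Agent
open Pool.Agent.TH362.TF.Contr

variable {V E : Type} [Fintype V] [DecidableEq V] [Fintype E] [DecidableEq E]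

/-- the map which contracts `A` to `a` -/
def ctr (A : Finset V) (a : V) (s : E → V) : E → V := fun e => if s e ∈ A then a else s e

/-- the property `P` fails, but it holds for the contractions of connected sets -/
structure MinP (P : (E → V) → (E → V) → Prop) (s t : E → V) : Prop where
  n1 : N1 s t univ
  np : ¬ P s t
  mn : ∀ (A : Finset V) (a : V), a ∈ A → ConnS s t univ (fun v => v ∈ A) →
    (∃ e, s e ≠ t e ∧ s e ∈ A ∧ t e ∈ A) → P (ctr A a s) (ctr A a t)

theorem exists_MinP (P : (E → V) → (E → V) → Prop) (s t : E → V) (h1 : N1 s t univ)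
    (h2 : ¬ P s t) :
    ∃ π : V → V, FC s t univ π ∧ MinP P (fun e => π (s e)) (fun e => π (t e)) := by
  classical
  set Q : Finset (V → V) := univ.filter (fun π => FC s t univ π ∧
    ¬ P (fun e => π (s e)) (fun e => π (t e))) with hQ
  have hne : Q.Nonempty := by
    refine ⟨id, mem_filter.2 ⟨mem_univ _, ?_, h2⟩⟩
    intro x y hxy
    have : x = y := hxy
    subst this
    exact ReflTransGen.refl
  obtain ⟨π, hπ, hmin⟩ := Finset.exists_min_image Q
    (fun π => (univ.filter (fun e : E => π (s e) ≠ π (t e))).card) hne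
  obtain ⟨-, h0, h4⟩ := mem_filter.1 hπ
  refine ⟨π, h0, quot_n1 (S' := univ) (Subset.refl _) (fun e h h' => absurd h h') h1, h4, ?_⟩
  rintro A a ha hA ⟨e, hne', hsA, htA⟩
  by_contra h6
  set f : V → V := fun v => if v ∈ A then a else v with hf
  have hfA : ∀ v, v ∈ A → f v = a := fun v hv => if_pos hv
  have hfn : ∀ v, v ∉ A → f v = v := fun v hv => if_neg hv
  have hFC : FC s t univ (fun v => f (π v)) := by
    intro x y hxy
    have hxy' : f (π x) = f (π y) := hxy
    by_cases hx : π x ∈ A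
    · have hy : π y ∈ A := by
        by_contra hy
        rw [hfA _ hx, hfn _ hy] at hxy'
        exact hy (hxy' ▸ ha)
      have key : ∀ q, ReflTransGen (St (fun e => π (s e)) (fun e => π (t e)) univ
          (fun v => v ∈ A)) (π x) q → ∀ y', π y' = q →
          ReflTransGen (St s t univ (fun u => f (π u) = f (π x))) x y' := by
        intro q hq
        induction hq with
        | refl =>
          intro y' hy'
          refine St.mono ?_ (h0 x y' hy'.symm)
          intro u hu
          rw [hu]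
        | tail hpq hstep ih =>
          rename_i p q'
          intro y' hy'
          obtain ⟨⟨e', he', hE⟩, hp, hq'⟩ := hstep
          have : ∃ u w, Ends s t u w e' ∧ π u = p ∧ π w = q' := by
            rcases hE with ⟨a1, a2⟩ | ⟨a1, a2⟩
            · exact ⟨s e', t e', Or.inl ⟨rfl, rfl⟩, a1, a2⟩
            · exact ⟨t e', s e', Or.inr ⟨rfl, rfl⟩, a2, a1⟩
          obtain ⟨u, w, hE', hu, hw⟩ := this
          refine ((ih u hu).tail ⟨⟨e', he', hE'⟩, ?_, ?_⟩).trans ?_
          · show f (π u) = f (π x)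
            rw [hfA _ (hu ▸ hp), hfA _ hx]
          · show f (π w) = f (π x)
            rw [hfA _ (hw ▸ hq'), hfA _ hx]
          · refine St.mono ?_ (h0 w y' (hw.trans hy'.symm))
            intro v hv
            show f (π v) = f (π x)
            rw [hv, hfA _ (hw ▸ hq'), hfA _ hx]
      exact key (π y) (hA _ hx _ hy) y rfl
    · have hy : π y ∉ A := by
        intro hy
        rw [hfn _ hx, hfA _ hy] at hxy'
        exact hx (hxy' ▸ ha)
      rw [hfn _ hx, hfn _ hy] at hxy'
      refine St.mono ?_ (h0 x y hxy')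
      intro u hu
      show f (π u) = f (π x)
      rw [hu]
  have h8 := hmin (fun v => f (π v)) (mem_filter.2 ⟨mem_univ _, hFC, h6⟩)
  have h9 : (univ.filter (fun e : E => f (π (s e)) ≠ f (π (t e)))).card <
      (univ.filter (fun e : E => π (s e) ≠ π (t e))).card := by
    refine card_lt_card ⟨?_, ?_⟩
    · intro x hx
      rw [mem_filter] at hx ⊢
      exact ⟨hx.1, fun h => hx.2 (by rw [h])⟩
    · intro h
      have := h (mem_filter.2 ⟨mem_univ e, hne'⟩)
      exact (mem_filter.1 this).2 (by rw [hfA _ hsA, hfA _ htA])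
  omega

/-- the edges with exactly one end in `A` -/
abbrev cu (s t : E → V) (A : Finset V) : Finset E := cut s t univ (fun v => decide (v ∈ A))

theorem mem_cu {s t : E → V} {A : Finset V} {e : E} :
    e ∈ cu s t A ↔ ¬ (s e ∈ A ↔ t e ∈ A) := by
  unfold cu cut
  rw [mem_filter]
  simp only [mem_univ, true_and, ne_eq, decide_eq_decide]

/-- the other side of a cut with three edges -/
theorem three_cut {s t : E → V} (hn : N1 s t univ) {A : Finset V} (h3 : (cu s t A).card = 3) :
    ∃ A2 : Finset V, Disjoint A A2 ∧ ConnS s t univ (fun v => v ∈ A2) ∧ cu s t A2 = cu s t A ∧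
      (∀ e, s e ∉ A → t e ∉ A → (s e ∈ A2 ↔ t e ∈ A2)) ∧ A2.Nonempty := by
  classical
  obtain ⟨e0, he0⟩ : (cu s t A).Nonempty := card_pos.1 (by omega)
  obtain ⟨y0, hy0, hye⟩ : ∃ y, y ∉ A ∧ (s e0 = y ∨ t e0 = y) := by
    rw [mem_cu] at he0
    by_cases h1 : s e0 ∈ A
    · exact ⟨t e0, fun h => he0 ⟨fun _ => h, fun _ => h1⟩, Or.inr rfl⟩
    · exact ⟨s e0, h1, Or.inl rfl⟩
  set A2 : Finset V := univ.filter (ReflTransGen (St s t univ (fun v => v ∉ A)) y0) with hA2
  have hmem : ∀ x, x ∈ A2 ↔ ReflTransGen (St s t univ (fun v => v ∉ A)) y0 x := by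
    intro x; rw [hA2, mem_filter]; exact ⟨fun h => h.2, fun h => ⟨mem_univ _, h⟩⟩
  have hout : ∀ x, x ∈ A2 → x ∉ A := by
    intro x hx
    rw [hmem] at hx
    induction hx with
    | refl => exact hy0
    | tail _ h2 _ => exact h2.2.2
  have hcl : ∀ e, s e ∉ A → t e ∉ A → (s e ∈ A2 ↔ t e ∈ A2) := by
    intro e h1 h2
    rw [hmem, hmem]
    exact ⟨fun h => h.tail ⟨⟨e, mem_univ _, Or.inl ⟨rfl, rfl⟩⟩, h1, h2⟩,
      fun h => h.tail ⟨⟨e, mem_univ _, Or.inr ⟨rfl, rfl⟩⟩, h2, h1⟩⟩
  have hconn : ConnS s t univ (fun v => v ∈ A2) := by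
    refine connS_of (a := y0) ?_
    intro x hx
    rw [hmem] at hx
    induction hx with
    | refl => exact ReflTransGen.refl
    | tail h1 h2 ih =>
      exact ih.tail ⟨h2.1, (hmem _).2 h1, (hmem _).2 (h1.tail h2)⟩
  have hy2 : y0 ∈ A2 := (hmem _).2 ReflTransGen.refl
  set A3 : Finset V := univ.filter (fun v => v ∉ A ∧ v ∉ A2) with hA3
  have hm3 : ∀ x, x ∈ A3 ↔ x ∉ A ∧ x ∉ A2 := by intro x; simp [hA3]
  have hun : cu s t A = cu s t A2 ∪ cu s t A3 := by
    ext e
    rw [mem_union, mem_cu, mem_cu, mem_cu, hm3, hm3]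
    have h1 := hcl e
    have h2 := hout (s e)
    have h4 := hout (t e)
    tauto
  have hdis : Disjoint (cu s t A2) (cu s t A3) := by
    rw [disjoint_left]
    intro e
    rw [mem_cu, mem_cu, hm3, hm3]
    have h1 := hcl e
    have h2 := hout (s e)
    have h4 := hout (t e)
    tauto
  have hcard := h3
  rw [hun, card_union_of_disjoint hdis] at hcard
  have b1 : (cu s t A2).card ≠ 1 := hn _
  have b2 : (cu s t A3).card ≠ 1 := hn _
  have b3 : 0 < (cu s t A2).card := by
    apply card_pos.2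
    refine ⟨e0, ?_⟩
    rw [mem_cu] at he0 ⊢
    have h2 := hout (s e0)
    have h4 := hout (t e0)
    rcases hye with h | h
    · have h5 : s e0 ∈ A2 := h ▸ hy2
      tauto
    · have h5 : t e0 ∈ A2 := h ▸ hy2
      tauto
  have b4 : (cu s t A3).card = 0 := by omega
  refine ⟨A2, ?_, hconn, ?_, hcl, ⟨y0, hy2⟩⟩
  · rw [disjoint_left]
    intro x h1 h2
    exact hout x h2 h1
  · rw [card_eq_zero] at b4
    rw [hun, b4, union_empty]

/-- a component which is a Petersen graph (with loops) -/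
structure PetComp (s t : E → V) (κ : V → Fin 10) (c : Fin 10 → V) : Prop where
  pq : IsPQ s t univ κ
  kc : ∀ k, κ (c k) = k
  cl : ∀ e k, s e = c k → ∃ l, t e = c l
  cl' : ∀ e k, t e = c k → ∃ l, s e = c l
  lv : ∀ e k, ¬ (κ (s e) = k ↔ κ (t e) = k) → s e = c k ∨ t e = c k

theorem MinP.pet {P : (E → V) → (E → V) → Prop} {s t : E → V} (h : MinP P s t)
    (hpq : PQ s t univ)
    (hsum : ∀ (A1 A2 : Finset V) (a1 a2 : V), a1 ∈ A1 → a2 ∈ A2 → Disjoint A1 A2 →
      (cu s t A1).card = 3 → cu s t A2 = cu s t A1 → P (ctr A1 a1 s) (ctr A1 a1 t) →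
      P (ctr A2 a2 s) (ctr A2 a2 t) → P s t) : ∃ κ c, PetComp s t κ c := by
  classical
  obtain ⟨κ, hκ⟩ := hpq
  have hc : ∀ k : Fin 10, ∃ c : V, κ c = k ∧
      ∃ e0 : E, (s e0 = c ∧ κ (t e0) ≠ κ c) ∨ (t e0 = c ∧ κ (s e0) ≠ κ c) := by
    intro k
    obtain ⟨e, _, he⟩ := hκ.2 k (nb k 0) (padj_nb k 0)
    have h4 := nb_ne k 0
    rcases he with ⟨a, b⟩ | ⟨a, b⟩
    · refine ⟨s e, a, e, Or.inl ⟨rfl, ?_⟩⟩
      rw [a, b]
      exact h4
    · refine ⟨t e, b, e, Or.inr ⟨rfl, ?_⟩⟩
      rw [a, b]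
      exact h4
  choose c hck e0 he0 using hc
  have hends : ∀ (k : Fin 10) (e : E), (κ (s e) = k → κ (t e) ≠ k → s e ∈ Bc s t κ (c k)) ∧
      (κ (t e) = k → κ (s e) ≠ k → t e ∈ Bc s t κ (c k)) := by
    intro k e
    have h2 := Bc_ends s t h.n1 κ hκ (c k) (e0 k) (he0 k) e
    rw [hck] at h2
    exact h2
  have hclass : ∀ (k : Fin 10) (v : V), v ∈ Bc s t κ (c k) → κ v = k := by
    intro k v hv
    rw [Bc_class s t κ (c k) v hv, hck]
  have hclosed : ∀ (k : Fin 10) (e : E), κ (s e) = k → κ (t e) = k →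
      (s e ∈ Bc s t κ (c k) ↔ t e ∈ Bc s t κ (c k)) := by
    intro k e h1 h2
    exact Bc_closed s t κ (c k) e (by rw [h1, hck]) (by rw [h2, hck])
  -- the classes as finite sets
  set D : Fin 10 → Finset V := fun k => univ.filter (fun v => v ∈ Bc s t κ (c k)) with hD
  have hDm : ∀ k v, v ∈ D k ↔ v ∈ Bc s t κ (c k) := by intro k v; simp [hD]
  have hDc : ∀ k, ConnS s t univ (fun v => v ∈ D k) := by
    intro k
    obtain ⟨_, h1⟩ := Bc_connected s t κ (c k)
    intro x hx y hy
    have h2 := h1 x ((hDm k x).1 hx) y ((hDm k y).1 hy)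
    unfold TH362.Multi.Linked at h2
    induction h2 with
    | refl => exact ReflTransGen.refl
    | tail h3 h4 ih =>
      rename_i p q
      obtain ⟨e, ⟨he1, he2⟩, hE⟩ := h4
      have hp : p ∈ D k := by
        rcases hE with ⟨a1, a2⟩ | ⟨a1, a2⟩
        · exact (hDm k p).2 (a1 ▸ he1)
        · exact (hDm k p).2 (a2 ▸ he2)
      exact (ih hp).tail ⟨⟨e, mem_univ _, hE⟩, hp, hy⟩
  have hcD : ∀ k, c k ∈ D k := fun k => (hDm k _).2 ReflTransGen.refl
  have hcut : ∀ k, cu s t (D k) = cut s t univ (fun v => decide (κ v = k)) := by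
    intro k
    ext e
    rw [mem_cu, hDm, hDm]
    unfold cut
    rw [mem_filter]
    simp only [mem_univ, true_and, ne_eq, decide_eq_decide]
    have h1 := hends k e
    have h2 := hclass k (s e)
    have h3 := hclass k (t e)
    have h4 := hclosed k e
    tauto
  have hcard : ∀ k, (cu s t (D k)).card = 3 := by
    intro k
    rw [hcut]
    exact hκ.1 k
  have hcD2 : ∀ k, ∀ e, s e ∈ D k → t e ∈ D k → s e = t e := by
    intro k e hs ht
    by_contra hne
    obtain ⟨A2, hA1, hA2, hA3, hA4, a2, ha2⟩ := three_cut h.n1 (hcard k)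
    -- an edge inside A2
    have hcov : ∃ e', s e' ≠ t e' ∧ s e' ∈ A2 ∧ t e' ∈ A2 := by
      -- the neighbour class l, and a further neighbour m of l
      set l := nb k 0 with hl
      have hpl : padj k l = true := padj_nb k 0
      have hkl : k ≠ l := padj_ne _ _ hpl
      obtain ⟨m, hm1, hm2⟩ : ∃ m, padj l m = true ∧ m ≠ k := by
        have key : ∀ k : Fin 10, ∃ m, padj (nb k 0) m = true ∧ m ≠ k := by decide
        exact key k
      have hlm : l ≠ m := padj_ne _ _ hm1
      obtain ⟨x, _, hx⟩ := hκ.2 k l hpl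
      obtain ⟨y, _, hy⟩ := hκ.2 l m hm1
      have hDA : ∀ j, j ≠ k → ∀ v, v ∈ D j → v ∉ D k := by
        intro j hj v hv hv'
        exact hj ((hclass j v ((hDm j v).1 hv)).symm.trans (hclass k v ((hDm k v).1 hv')))
      -- the end of x in class l
      have hxcut : x ∈ cu s t A2 := by
        rw [hA3, hcut]
        unfold cut
        rw [mem_filter]
        refine ⟨mem_univ _, ?_⟩
        rcases hx with ⟨h1, h2⟩ | ⟨h1, h2⟩ <;> simp [h1, h2, hkl, hkl.symm]
      have hxin : ∃ v, v ∈ D l ∧ v ∈ A2 := by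
        rw [mem_cu] at hxcut
        rcases hx with ⟨h1, h2⟩ | ⟨h1, h2⟩
        · have h5 : t x ∈ D l := (hDm l _).2 ((hends l x).2 h2 (by rw [h1]; exact hkl))
          have h6 : s x ∈ D k := (hDm k _).2 ((hends k x).1 h1 (by rw [h2]; exact hkl.symm))
          have h7 : s x ∉ A2 := fun h => (disjoint_left.1 hA1) h6 h
          exact ⟨t x, h5, by tauto⟩
        · have h5 : s x ∈ D l := (hDm l _).2 ((hends l x).1 h1 (by rw [h2]; exact hkl))
          have h6 : t x ∈ D k := (hDm k _).2 ((hends k x).2 h2 (by rw [h1]; exact hkl.symm))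
          have h7 : t x ∉ A2 := fun h => (disjoint_left.1 hA1) h6 h
          exact ⟨s x, h5, by tauto⟩
      obtain ⟨v, hv1, hv2⟩ := hxin
      have hDl : ∀ w, w ∈ D l → w ∈ A2 := by
        intro w hw
        have h1 := hDc l v hv1 w hw
        clear hw
        induction h1 with
        | refl => exact hv2
        | tail _ h4 ih =>
          obtain ⟨⟨e', _, hE⟩, hp, hq⟩ := h4
          have h5 := hDA l hkl.symm _ hp
          have h6 := hDA l hkl.symm _ hq
          rcases hE with ⟨a1, a2⟩ | ⟨a1, a2⟩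
          · have h7 := hA4 e' (by rw [a1]; exact h5) (by rw [a2]; exact h6)
            rw [a1, a2] at h7
            exact h7.1 ih
          · have h7 := hA4 e' (by rw [a1]; exact h6) (by rw [a2]; exact h5)
            rw [a1, a2] at h7
            exact h7.2 ih
      rcases hy with ⟨h1, h2⟩ | ⟨h1, h2⟩
      · have h5 : s y ∈ D l := (hDm l _).2 ((hends l y).1 h1 (by rw [h2]; exact hlm.symm))
        have h6 : t y ∈ D m := (hDm m _).2 ((hends m y).2 h2 (by rw [h1]; exact hlm))
        have h7 := hDl _ h5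
        refine ⟨y, fun h => hlm (by rw [← h1, ← h2, h]), h7, ?_⟩
        exact (hA4 y (hDA l hkl.symm _ h5) (hDA m hm2 _ h6)).1 h7
      · have h5 : t y ∈ D l := (hDm l _).2 ((hends l y).2 h2 (by rw [h1]; exact hlm.symm))
        have h6 : s y ∈ D m := (hDm m _).2 ((hends m y).1 h1 (by rw [h2]; exact hlm))
        have h7 := hDl _ h5
        refine ⟨y, fun h => hlm (by rw [← h1, ← h2, h]), ?_, h7⟩
        exact (hA4 y (hDA m hm2 _ h6) (hDA l hkl.symm _ h5)).2 h7
    exact h.np (hsum (D k) A2 (c k) a2 (hcD k) ha2 hA1 (hcard k) hA3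
      (h.mn _ _ (hcD k) (hDc k) ⟨e, hne, hs, ht⟩) (h.mn _ _ ha2 hA2 hcov))
  have hsingle : ∀ k v, v ∈ D k → v = c k := by
    intro k v hv
    have h1 := hDc k (c k) (hcD k) v hv
    clear hv
    induction h1 with
    | refl => rfl
    | tail _ h4 ih =>
      obtain ⟨⟨e', _, hE⟩, hp, hq⟩ := h4
      rcases hE with ⟨a1, a2⟩ | ⟨a1, a2⟩
      · have := hcD2 k e' (a1 ▸ hp) (a2 ▸ hq)
        rw [a1, a2] at this
        rw [← this]; exact ih
      · have := hcD2 k e' (a1 ▸ hq) (a2 ▸ hp)
        rw [a1, a2] at this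
        rw [this]; exact ih
  refine ⟨κ, c, hκ, hck, ?_, ?_, ?_⟩
  · intro e k hk
    have h1 : κ (s e) = k := by rw [hk, hck]
    by_cases h2 : κ (t e) = k
    · refine ⟨k, hsingle k _ ((hDm k _).2 ?_)⟩
      rw [← hclosed k e h1 h2, ← hDm, hk]
      exact hcD k
    · exact ⟨κ (t e), hsingle _ _ ((hDm _ _).2 ((hends _ e).2 rfl (by rw [h1]; exact Ne.symm h2)))⟩
  · intro e k hk
    have h1 : κ (t e) = k := by rw [hk, hck]
    by_cases h2 : κ (s e) = k
    · refine ⟨k, hsingle k _ ((hDm k _).2 ?_)⟩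
      rw [hclosed k e h2 h1, ← hDm, hk]
      exact hcD k
    · exact ⟨κ (s e), hsingle _ _ ((hDm _ _).2 ((hends _ e).1 rfl (by rw [h1]; exact Ne.symm h2)))⟩
  · intro e k hk
    by_cases h1 : κ (s e) = k
    · have h2 : κ (t e) ≠ k := fun h => hk ⟨fun _ => h, fun _ => h1⟩
      exact Or.inl (hsingle k _ ((hDm k _).2 ((hends k e).1 h1 h2)))
    · have h2 : κ (t e) = k := by tauto
      exact Or.inr (hsingle k _ ((hDm k _).2 ((hends k e).2 h2 h1)))

end Pool.Agent.R140.PK
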